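import Pool.Agent.H.MP_a74ba6_co.Ear

set_option autoImplicit false
set_option linter.unusedSectionVars false

namespace Pool.Agent.H.MP_a74ba6_co

open Finset

variable {V : Type} [Fintype V] [DecidableEq V]

/-- an involution matching `S` along `A` and fixing the rest -/
def Inv (A : V → V → Prop) (S : Finset V) (f : V → V) : Prop :=
  (∀ v, f (f v) = v) ∧ (∀ v ∈ S, f v ∈ S ∧ A v (f v)) ∧ ∀ v, v ∉ S → f v = v

open Classical in
/-- the number of perfect matchings of `S` -/
noncomputable def cnt (A : V → V → Prop) (S : Finset V) : ℕ :=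
  (univ.filter (fun f : V → V => Inv A S f)).card

variable {A R : V → V → Prop}

open Classical in
theorem cnt_rec (hA : ∀ a b, A a b → A b a) (hirr : ∀ a, ¬ A a a) (S : Finset V) (y : V)
    (hy : y ∈ S) : cnt A S = ∑ b ∈ S.filter (A y), cnt A (S \ {y, b}) := by
  unfold cnt
  rw [card_eq_sum_card_fiberwise (f := fun f : V → V => f y) (t := S.filter (A y))]
  · refine sum_congr rfl fun b hb => ?_
    rw [mem_filter] at hb
    have hyb : y ≠ b := fun e => hirr y (by rw [← e] at hb; exact hb.2)
    refine card_bij' (fun f _ => fun v => if v = y ∨ v = b then v else f v)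
      (fun g _ => fun v => if v = y then b else if v = b then y else g v) ?_ ?_ ?_ ?_
    · intro f hf
      simp only [mem_filter, mem_univ, true_and] at hf ⊢
      obtain ⟨⟨h1, h2, h3⟩, h4⟩ := hf
      have h5 : f b = y := by rw [← h4, h1]
      have h6 : ∀ v, ¬ (v = y ∨ v = b) → ¬ (f v = y ∨ f v = b) := by
        rintro v hv (e | e)
        · exact hv (Or.inr (by rw [← h1 v, e, h4]))
        · exact hv (Or.inl (by rw [← h1 v, e, h5]))
      refine ⟨fun v => ?_, fun v hv => ?_, fun v hv => ?_⟩
      · by_cases hv : v = y ∨ v = b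
        · simp only [hv, if_true]
        · simp only [hv, h6 v hv, if_false, h1]
      · simp only [mem_sdiff, mem_insert, mem_singleton] at hv ⊢
        simp only [hv.2, if_false]
        exact ⟨⟨(h2 v hv.1).1, h6 v hv.2⟩, (h2 v hv.1).2⟩
      · by_cases hv' : v = y ∨ v = b
        · simp only [hv', if_true]
        · simp only [hv', if_false]
          refine h3 v fun h => hv ?_
          simp only [mem_sdiff, mem_insert, mem_singleton]
          exact ⟨h, hv'⟩
    · intro g hg
      simp only [mem_filter, mem_univ, true_and] at hg ⊢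
      obtain ⟨h1, h2, h3⟩ := hg
      have gy : g y = y := h3 y (by simp)
      have gb : g b = b := h3 b (by simp)
      refine ⟨⟨fun v => ?_, fun v hv => ?_, fun v hv => ?_⟩, by simp⟩
      · by_cases e1 : v = y
        · simp [e1, hyb.symm]
        · by_cases e2 : v = b
          · simp [e2, hyb.symm]
          · have n1 : g v ≠ y := fun e => e1 (by rw [← h1 v, e, gy])
            have n2 : g v ≠ b := fun e => e2 (by rw [← h1 v, e, gb])
            simp only [e1, e2, n1, n2, if_false, h1]
      · by_cases e1 : v = y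
        · simp only [e1, if_true]
          exact hb
        · by_cases e2 : v = b
          · simp only [e2, hyb.symm, if_true, if_false]
            exact ⟨hy, hA _ _ hb.2⟩
          · simp only [e1, e2, if_false]
            have := h2 v (by simp [hv, e1, e2])
            exact ⟨(mem_sdiff.1 this.1).1, this.2⟩
      · have e1 : v ≠ y := fun e => hv (e ▸ hy)
        have e2 : v ≠ b := fun e => hv (e ▸ hb.1)
        simp only [e1, e2, if_false]
        exact h3 v (fun h => hv (mem_sdiff.1 h).1)
    · intro f hf
      simp only [mem_filter, mem_univ, true_and] at hf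
      obtain ⟨⟨h1, _, _⟩, h4⟩ := hf
      have h5 : f b = y := by rw [← h4, h1]
      funext v
      by_cases e1 : v = y
      · simp [e1, h4]
      · by_cases e2 : v = b
        · simp [e2, h5, hyb.symm]
        · simp [e1, e2]
    · intro g hg
      simp only [mem_filter, mem_univ, true_and] at hg
      obtain ⟨_, _, h3⟩ := hg
      have gy : g y = y := h3 y (by simp)
      have gb : g b = b := h3 b (by simp)
      funext v
      by_cases e1 : v = y
      · simp [e1, gy]
      · by_cases e2 : v = b
        · simp [e2, gb]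
        · simp [e1, e2]
  · intro f hf
    have hf' : Inv A S f := by simpa using hf
    exact mem_coe.2 (mem_filter.2 (hf'.2.1 y hy))

theorem cnt_pos (hA : ∀ a b, A a b → A b a) (hirr : ∀ a, ¬ A a a) {S : Finset V} (h : PM A S) :
    0 < cnt A S := by
  classical
  induction h with
  | nil =>
    unfold cnt
    exact card_pos.2 ⟨id, mem_filter.2 ⟨mem_univ _, fun _ => rfl, by simp, fun _ _ => rfl⟩⟩
  | @cons S a b _ hab hne ha hb ih =>
    rw [cnt_rec hA hirr _ a (by simp)]
    refine lt_of_lt_of_le ?_ (single_le_sum (f := fun c => cnt A (insert a (insert b S) \ {a, c}))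
      (fun _ _ => Nat.zero_le _) (a := b) (mem_filter.2 ⟨by simp, hab⟩))
    have : insert a (insert b S) \ {a, b} = S := by
      ext v
      simp only [mem_sdiff, mem_insert, mem_singleton, not_or]
      constructor
      · tauto
      · intro hv
        exact ⟨Or.inr (Or.inr hv), fun e => ha (e ▸ hv), fun e => hb (e ▸ hv)⟩
    simp only [this]
    exact ih

theorem pm_of_cnt (hA : ∀ a b, A a b → A b a) (hirr : ∀ a, ¬ A a a) : ∀ (n : ℕ) (S : Finset V),
    S.card ≤ n → 0 < cnt A S → PM A S := by
  classical
  intro n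
  induction n with
  | zero =>
    intro S hn _
    rw [card_eq_zero.1 (Nat.le_zero.1 hn)]
    exact PM.nil
  | succ n ih =>
    intro S hn hc
    rcases S.eq_empty_or_nonempty with rfl | ⟨y, hy⟩
    · exact PM.nil
    rw [cnt_rec hA hirr S y hy] at hc
    obtain ⟨b, hb, hpos⟩ := exists_ne_zero_of_sum_ne_zero hc.ne'
    rw [mem_filter] at hb
    have hlt : (S \ {y, b}).card < S.card :=
      card_lt_card ⟨sdiff_subset, fun h => by simpa using h hy⟩
    refine (ih _ (by omega) (Nat.pos_of_ne_zero hpos)).add hb.2
      (fun e => hirr y (by rw [← e] at hb; exact hb.2)) (by simp) (by simp) fun v => ?_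
    simp only [mem_sdiff, mem_insert, mem_singleton, not_or]
    constructor
    · tauto
    · rintro (rfl | rfl | hv)
      · exact hy
      · exact hb.1
      · exact hv.1

theorem noIn (hAR : ∀ a b, A a b ↔ R a b ∨ R b a) (hanti : ∀ a b, R a b → ¬ R b a)
    {W : Finset V} (hW : FC A W) (h : NoOut A R W) : NoOut A (flip R) W := by
  classical
  have hA : ∀ a b, A a b → A b a := fun a b h => (hAR _ _).2 ((hAR _ _).1 h).symm
  have hirr : ∀ a, ¬ A a a := fun a e => by
    rcases (hAR _ _).1 e with e | e <;> exact hanti _ _ e e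
  set N : V → ℕ := fun x => cnt A (W.erase x) with hN
  set Tt : V → V → V → ℕ := fun y x b => cnt A (W \ {y, x, b}) with hT
  set O : V → Finset V := fun y => W.filter (fun x => R y x) with hO
  set I : V → Finset V := fun y => W.filter (fun x => R x y) with hI
  have base : ∀ y ∈ W, ∀ x, x ≠ y →
      N x = ∑ b ∈ (O y).erase x, Tt y x b + ∑ b ∈ (I y).erase x, Tt y x b := by
    intro y hy x hxy
    rw [← sum_union]
    · simp only [hN]
      rw [cnt_rec hA hirr _ y (mem_erase.2 ⟨hxy.symm, hy⟩)]
      refine sum_congr ?_ fun b _ => ?_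
      · ext b
        simp only [hO, hI, mem_filter, mem_erase, mem_union, hAR]
        tauto
      · simp only [hT]
        congr 1
        ext v
        simp only [mem_sdiff, mem_insert, mem_singleton, not_or, mem_erase]
        tauto
    · refine disjoint_left.2 fun b h1 h2 => ?_
      simp only [hO, hI, mem_filter, mem_erase] at h1 h2
      exact hanti _ _ h1.2.2 h2.2.2
  have outs : ∀ y ∈ W, ∀ x ∈ O y, N x = ∑ b ∈ I y, Tt y x b := by
    intro y hy x hx
    simp only [hO, mem_filter] at hx
    rw [base y hy x (fun e => hanti _ _ hx.2 (by rw [e] at hx ⊢; exact hx.2)),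
      sum_eq_zero, zero_add, erase_eq_of_notMem]
    · simp only [hI, mem_filter, not_and]
      exact fun _ => hanti _ _ hx.2
    · intro b hb
      simp only [hO, mem_filter, mem_erase] at hb
      by_contra hne
      exact h y hy x hx.1 b hb.2.1 hb.1.symm hx.2 hb.2.2
        (pm_of_cnt hA hirr _ _ le_rfl (Nat.pos_of_ne_zero hne))
  have ins : ∀ y ∈ W, ∑ x ∈ I y, N x =
      ∑ x ∈ O y, N x + ∑ x ∈ I y, ∑ b ∈ (I y).erase x, Tt y x b := by
    intro y hy
    rw [sum_congr rfl (outs y hy), sum_comm, ← sum_add_distrib]
    refine sum_congr rfl fun x hx => ?_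
    simp only [hI, mem_filter] at hx
    rw [base y hy x (fun e => hanti _ _ hx.2 (by rw [e] at hx ⊢; exact hx.2)), erase_eq_of_notMem]
    · congr 1
      refine sum_congr rfl fun b _ => ?_
      simp only [hT]
      rw [pair_comm x b]
    · simp only [hO, mem_filter, not_and]
      exact fun _ => hanti _ _ hx.2
  have tot : ∑ y ∈ W, N y * ∑ x ∈ I y, N x = ∑ y ∈ W, N y * ∑ x ∈ O y, N x := by
    simp only [mul_sum, hI, hO, sum_filter]
    rw [sum_comm]
    refine sum_congr rfl fun y _ => sum_congr rfl fun x _ => ?_
    split_ifs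
    · ring
    · ring
  rw [sum_congr rfl (fun y hy => by rw [ins y hy, mul_add]), sum_add_distrib] at tot
  have zero : ∑ y ∈ W, N y * ∑ x ∈ I y, ∑ b ∈ (I y).erase x, Tt y x b = 0 := by omega
  intro y hy a ha b hb hab ra rb hP
  have z1 := (sum_eq_zero_iff.1 zero) y hy
  have npos : 0 < N y := cnt_pos hA hirr (hW y hy)
  have z2 := (mul_eq_zero.1 z1).resolve_left npos.ne'
  have z3 := (sum_eq_zero_iff.1 z2) a (mem_filter.2 ⟨ha, ra⟩)
  have z4 := (sum_eq_zero_iff.1 z3) b (mem_erase.2 ⟨hab.symm, mem_filter.2 ⟨hb, rb⟩⟩)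
  exact (cnt_pos hA hirr hP).ne' z4

end Pool.Agent.H.MP_a74ba6_co
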