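import Pool.Agent.H.MP_a74ba6_co.PM

set_option autoImplicit false
set_option linter.unusedSectionVars false

namespace Pool.Agent.H.MP_a74ba6_co

open Finset

theorem hall {α β : Type} [DecidableEq α] [DecidableEq β] (d : β) (B : Finset α)
    (t : α → Finset β) (h : ∀ s ⊆ B, s.card ≤ (s.biUnion t).card) :
    ∃ φ : α → β, (∀ a ∈ B, φ a ∈ t a) ∧ ∀ a ∈ B, ∀ b ∈ B, φ a = φ b → a = b := by
  obtain ⟨f, f1, f2⟩ := (Finset.all_card_le_biUnion_card_iff_exists_injective
    (fun a : {a // a ∈ B} => t a.1)).1 (by
      intro s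
      have := h (s.image Subtype.val) (fun a ha => by
        obtain ⟨b, _, rfl⟩ := mem_image.1 ha
        exact b.2)
      rw [card_image_of_injective _ Subtype.val_injective, image_biUnion] at this
      exact this)
  refine ⟨fun a => if h : a ∈ B then f ⟨a, h⟩ else d, fun a ha => ?_, fun a ha b hb e => ?_⟩
  · simp only [ha, dif_pos]
    exact f2 ⟨a, ha⟩
  · simp only [ha, hb, dif_pos] at e
    exact congrArg Subtype.val (f1 e)

variable {V : Type} [Fintype V] [DecidableEq V]

/-- odd pieces of `W` whose neighbours lie in the piece or in `B` -/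
structure Dec (A : V → V → Prop) (W B : Finset V) (F : Finset (Finset V)) : Prop where
  hB : B ⊆ W
  sub : ∀ K ∈ F, K ⊆ W
  odd : ∀ K ∈ F, K.card % 2 = 1
  dis : ∀ K ∈ F, ∀ v ∈ K, v ∉ B
  cl : ∀ K ∈ F, ∀ v ∈ K, ∀ u ∈ W, A v u → u ∈ K ∨ u ∈ B
  pw : ∀ K ∈ F, ∀ K' ∈ F, ∀ v, v ∈ K → v ∈ K' → K = K'

/-- a decomposition into factor-critical pieces and a set matched into the pieces -/
structure Full (A : V → V → Prop) (W B : Finset V) (F : Finset (Finset V)) : Prop
    extends Dec A W B F where
  cov : ∀ v ∈ W, v ∈ B ∨ ∃ K ∈ F, v ∈ K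
  fc : ∀ K ∈ F, FC A K
  mat : ∃ φ : V → Finset V, (∀ a ∈ B, φ a ∈ F ∧ ∃ k ∈ φ a, A a k) ∧
    ∀ a ∈ B, ∀ b ∈ B, φ a = φ b → a = b

variable {A : V → V → Prop} {W B : Finset V} {F : Finset (Finset V)}

theorem Dec.ne (h : Dec A W B F) {K : Finset V} (hK : K ∈ F) : K.Nonempty := by
  have := h.odd K hK
  exact card_pos.1 (by omega)

theorem Full.card (h : Full A W B F) : W.card = B.card + ∑ K ∈ F, K.card := by
  rw [← card_biUnion (t := fun K => K), ← card_union_of_disjoint]
  · congr 1
    ext v
    simp only [mem_union, mem_biUnion]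
    constructor
    · exact h.cov v
    · rintro (hv | ⟨K, hK, hv⟩)
      · exact h.hB hv
      · exact h.sub K hK hv
  · refine disjoint_left.2 fun v hv hv' => ?_
    obtain ⟨K, hK, hv'⟩ := mem_biUnion.1 hv'
    exact h.dis K hK v hv' hv
  · intro K hK K' hK' hne
    exact disjoint_left.2 fun v h1 h2 => hne (h.pw K hK K' hK' v h1 h2)

theorem Full.par (h : Full A W B F) : W.card % 2 = (B.card + F.card) % 2 := by
  have : (∑ K ∈ F, K.card) % 2 = F.card % 2 := by
    rw [sum_nat_mod, sum_congr rfl h.odd]
    simp
  rw [h.card]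
  omega

theorem Full.le (h : Full A W B F) : B.card ≤ F.card := by
  obtain ⟨φ, h1, h2⟩ := h.mat
  exact card_le_card_of_injOn φ (fun a ha => (h1 a ha).1) (fun a ha b hb e => h2 a ha b hb e)

theorem FC.ins {K : Finset V} (h : FC A K) {a k : V} (ha : a ∉ K) (hk : k ∈ K) (e : A a k) :
    PM A (insert a K) := by
  refine (h k hk).add e (fun q => ha (q ▸ hk)) (by simp [ha]) (by simp) fun v => ?_
  simp only [mem_insert, mem_erase]
  constructor
  · tauto
  · rintro (rfl | rfl | hv)
    · exact Or.inl rfl
    · exact Or.inr hk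
    · exact Or.inr hv.2

theorem Full.pm (h : Full A W B F) (hle : F.card ≤ B.card) : PM A W := by
  obtain ⟨φ, h1, h2⟩ := h.mat
  have hs := surjOn_of_injOn_of_card_le (s := B) (t := F) φ (fun a ha => (h1 a ha).1)
    (fun a ha b hb e => h2 a ha b hb e) hle
  refine (PM.bUnion B (fun a => insert a (φ a)) (fun a ha => ?_) (fun a ha b hb hab => ?_)).of_iff
    fun v => ?_
  · obtain ⟨k, hk, e⟩ := (h1 a ha).2
    exact (h.fc _ (h1 a ha).1).ins (fun q => h.dis _ (h1 a ha).1 a q ha) hk e
  · refine disjoint_left.2 fun v p q => ?_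
    rw [mem_insert] at p q
    rcases p with rfl | p <;> rcases q with q | q
    · exact hab q
    · exact h.dis _ (h1 b hb).1 v q ha
    · exact h.dis _ (h1 a ha).1 v p (q ▸ hb)
    · exact hab (h2 a ha b hb (h.pw _ (h1 a ha).1 _ (h1 b hb).1 v p q))
  · simp only [mem_biUnion, mem_insert]
    constructor
    · intro hv
      rcases h.cov v hv with hv | ⟨K, hK, hv⟩
      · exact ⟨v, hv, Or.inl rfl⟩
      · obtain ⟨a, ha, rfl⟩ := hs (mem_coe.2 hK)
        exact ⟨a, ha, Or.inr hv⟩
    · rintro ⟨a, ha, rfl | hv⟩
      · exact h.hB ha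
      · exact h.sub _ (h1 a ha).1 hv

theorem Dec.piece (hA : ∀ a b, A a b → A b a) (h : Dec A W B F) (B' P : Finset V) (hB : B ⊆ B')
    (hB' : B' ⊆ W) (hB2 : ∀ K ∈ F, ∀ v ∈ K, v ∉ B')
    (hP : ∀ v, v ∈ P ↔ v ∈ W ∧ v ∉ B' ∧ ∀ K ∈ F, v ∉ K) (ho : P.card % 2 = 1) :
    Dec A W B' (insert P F) ∧ P ∉ F := by
  refine ⟨⟨hB', ?_, ?_, ?_, ?_, ?_⟩, fun hF => ?_⟩
  · intro K hK
    rcases mem_insert.1 hK with rfl | hK
    · exact fun v hv => ((hP v).1 hv).1
    · exact h.sub K hK
  · intro K hK
    rcases mem_insert.1 hK with rfl | hK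
    · exact ho
    · exact h.odd K hK
  · intro K hK
    rcases mem_insert.1 hK with rfl | hK
    · exact fun v hv => ((hP v).1 hv).2.1
    · exact hB2 K hK
  · intro K hK v hv u hu e
    rcases mem_insert.1 hK with rfl | hK
    · by_contra hn
      rw [not_or, hP] at hn
      have hv' := (hP v).1 hv
      refine hn.1 ⟨hu, hn.2, fun K' hK' huK => ?_⟩
      rcases h.cl K' hK' u huK v hv'.1 (hA _ _ e) with q | q
      · exact hv'.2.2 K' hK' q
      · exact hv'.2.1 (hB q)
    · exact (h.cl K hK v hv u hu e).imp_right fun q => hB q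
  · intro K hK K' hK' v p q
    rcases mem_insert.1 hK with e1 | hK1 <;> rcases mem_insert.1 hK' with e2 | hK2
    · rw [e1, e2]
    · exact absurd q (((hP v).1 (e1 ▸ p)).2.2 _ hK2)
    · exact absurd p (((hP v).1 (e2 ▸ q)).2.2 _ hK1)
    · exact h.pw K hK1 K' hK2 v p q
  · obtain ⟨v, hv⟩ := h.ne hF
    exact ((hP v).1 hv).2.2 P hF hv

theorem decomp (hA : ∀ a b, A a b → A b a) : ∀ (n : ℕ) (W : Finset V), W.card < n →
    ∃ B F, Full A W B F := by
  classical
  intro n
  induction n with
  | zero => intro W h; omega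
  | succ n ih =>
    intro W hn
    obtain ⟨p0, hp0, max0⟩ := exists_max_image
      (univ.filter (fun p : Finset V × Finset (Finset V) => Dec A W p.1 p.2))
      (fun p => (p.2.card : ℤ) - p.1.card)
      ⟨(∅, ∅), mem_filter.2 ⟨mem_univ _, by simp, by simp, by simp, by simp, by simp, by simp⟩⟩
    obtain ⟨⟨B, F⟩, hp, max1⟩ := exists_max_image
      (univ.filter (fun p : Finset V × Finset (Finset V) => Dec A W p.1 p.2 ∧
        (p.2.card : ℤ) - p.1.card = (p0.2.card : ℤ) - p0.1.card))
      (fun p => p.1.card) ⟨p0, mem_filter.2 ⟨mem_univ _, (mem_filter.1 hp0).2, rfl⟩⟩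
    obtain ⟨h, hd⟩ := (mem_filter.1 hp).2
    simp only at h hd
    have m1 : ∀ B' F', Dec A W B' F' → F'.card + B.card ≤ F.card + B'.card := by
      intro B' F' h'
      have := max0 (B', F') (mem_filter.2 ⟨mem_univ _, h'⟩)
      simp only at this
      omega
    have m2 : ∀ B' F', Dec A W B' F' → F.card + B'.card ≤ F'.card + B.card →
        B'.card ≤ B.card := by
      intro B' F' h' hle
      have := m1 B' F' h'
      exact max1 (B', F') (mem_filter.2 ⟨mem_univ _, h', by simp only; omega⟩)
    refine ⟨B, F, h, ?_, ?_, ?_⟩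
    · intro c hc
      by_contra hn'
      push Not at hn'
      set C := W.filter (fun v => v ∉ B ∧ ∀ K ∈ F, v ∉ K) with hC
      have hcC : c ∈ C := mem_filter.2 ⟨hc, hn'⟩
      by_cases ho : C.card % 2 = 1
      · obtain ⟨d, nd⟩ := h.piece hA B C subset_rfl h.hB h.dis (fun v => mem_filter) ho
        have := m1 _ _ d
        rw [card_insert_of_notMem nd] at this
        omega
      · have hpos := card_pos.2 ⟨c, hcC⟩
        obtain ⟨d, nd⟩ := h.piece hA (insert c B) (C.erase c) (subset_insert _ _)
          (insert_subset hc h.hB)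
          (fun K hK v hv q => by
            rcases mem_insert.1 q with rfl | q
            · exact hn'.2 K hK hv
            · exact h.dis K hK v hv q)
          (fun v => by
            simp only [hC, mem_erase, mem_filter, mem_insert, not_or]
            tauto)
          (by rw [card_erase_of_mem hcC]; omega)
        have := m2 _ _ d (by
          rw [card_insert_of_notMem nd, card_insert_of_notMem hn'.1]; omega)
        rw [card_insert_of_notMem hn'.1] at this
        omega
    · intro K hK c hc
      by_contra hno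
      have hKc := card_le_card (h.sub K hK)
      have hpos := card_pos.2 ⟨c, hc⟩
      have hodd := h.odd K hK
      obtain ⟨B', F', g⟩ := ih (K.erase c) (by rw [card_erase_of_mem hc]; omega)
      have g1 := g.le
      have g2 := g.par
      have g3 : ¬ F'.card ≤ B'.card := fun q => hno (g.pm q)
      rw [card_erase_of_mem hc] at g2
      have sK : ∀ K' ∈ F', ∀ v ∈ K', v ≠ c ∧ v ∈ K := fun K' hK' v hv =>
        mem_erase.1 (g.sub K' hK' hv)
      have sB : ∀ v ∈ B', v ≠ c ∧ v ∈ K := fun v hv => mem_erase.1 (g.hB hv)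
      have d : Dec A W (insert c (B ∪ B')) (F.erase K ∪ F') := by
        refine ⟨?_, ?_, ?_, ?_, ?_, ?_⟩
        · exact insert_subset (h.sub K hK hc)
            (union_subset h.hB fun v hv => h.sub K hK (sB v hv).2)
        · intro L hL
          rcases mem_union.1 hL with hL | hL
          · exact h.sub L (mem_of_mem_erase hL)
          · exact fun v hv => h.sub K hK (sK L hL v hv).2
        · intro L hL
          rcases mem_union.1 hL with hL | hL
          · exact h.odd L (mem_of_mem_erase hL)
          · exact g.odd L hL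
        · intro L hL v hv q
          simp only [mem_insert, mem_union] at q
          rcases mem_union.1 hL with hL | hL
          · rw [mem_erase] at hL
            rcases q with rfl | q | q
            · exact hL.1 (h.pw L hL.2 K hK v hv hc)
            · exact h.dis L hL.2 v hv q
            · exact hL.1 (h.pw L hL.2 K hK v hv (sB v q).2)
          · rcases q with rfl | q | q
            · exact (sK L hL v hv).1 rfl
            · exact h.dis K hK v (sK L hL v hv).2 q
            · exact g.dis L hL v hv q
        · intro L hL v hv u hu e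
          simp only [mem_insert, mem_union]
          rcases mem_union.1 hL with hL | hL
          · have := h.cl L (mem_of_mem_erase hL) v hv u hu e
            tauto
          · rcases h.cl K hK v (sK L hL v hv).2 u hu e with q | q
            · by_cases huc : u = c
              · tauto
              · have := g.cl L hL v hv u (mem_erase.2 ⟨huc, q⟩) e
                tauto
            · tauto
        · intro L hL L' hL' v p q
          rcases mem_union.1 hL with hL | hL <;> rcases mem_union.1 hL' with hL' | hL'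
          · exact h.pw L (mem_of_mem_erase hL) L' (mem_of_mem_erase hL') v p q
          · rw [mem_erase] at hL
            exact absurd (h.pw L hL.2 K hK v p (sK L' hL' v q).2) hL.1
          · rw [mem_erase] at hL'
            exact absurd (h.pw L' hL'.2 K hK v q (sK L hL v p).2) hL'.1
          · exact g.pw L hL L' hL' v p q
      have c1 : (insert c (B ∪ B')).card = B.card + B'.card + 1 := by
        rw [card_insert_of_notMem, card_union_of_disjoint]
        · exact disjoint_left.2 fun v p q => h.dis K hK v (sB v q).2 p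
        · simp only [mem_union, not_or]
          exact ⟨h.dis K hK c hc, fun q => (sB c q).1 rfl⟩
      have c2 : (F.erase K ∪ F').card + 1 = F.card + F'.card := by
        rw [card_union_of_disjoint, card_erase_of_mem hK]
        · have := card_pos.2 ⟨K, hK⟩
          omega
        · refine disjoint_left.2 fun L p q => ?_
          obtain ⟨v, hv⟩ := g.toDec.ne q
          rw [mem_erase] at p
          exact p.1 (h.pw L p.2 K hK v hv (sK L q v hv).2)
      have := m2 _ _ d (by omega)
      omega
    · obtain ⟨φ, f1, f2⟩ := hall ∅ B (fun a => F.filter (fun K => ∃ k ∈ K, A a k)) (by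
        intro s hs
        set N := s.biUnion (fun a => F.filter (fun K => ∃ k ∈ K, A a k)) with hN
        have hNF : N ⊆ F := biUnion_subset.2 fun a _ => filter_subset _ _
        have d : Dec A W (B \ s) (F \ N) := by
          refine ⟨sdiff_subset.trans h.hB, fun K hK => h.sub K (mem_sdiff.1 hK).1,
            fun K hK => h.odd K (mem_sdiff.1 hK).1,
            fun K hK v hv q => h.dis K (mem_sdiff.1 hK).1 v hv (mem_sdiff.1 q).1, ?_,
            fun K hK K' hK' => h.pw K (mem_sdiff.1 hK).1 K' (mem_sdiff.1 hK').1⟩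
          intro K hK v hv u hu e
          rw [mem_sdiff] at hK
          refine (h.cl K hK.1 v hv u hu e).imp_right fun q => mem_sdiff.2 ⟨q, fun q' => hK.2 ?_⟩
          exact mem_biUnion.2 ⟨u, q', mem_filter.2 ⟨hK.1, v, hv, hA _ _ e⟩⟩
        have := m1 _ _ d
        rw [card_sdiff_of_subset hs, card_sdiff_of_subset hNF] at this
        have := card_le_card hs
        have := card_le_card hNF
        omega)
      exact ⟨φ, fun a ha => mem_filter.1 (f1 a ha), f2⟩

end Pool.Agent.H.MP_a74ba6_co
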