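import Pool.Agent.H.MP_a74ba6_co.PM

set_option autoImplicit false
set_option linter.unusedSectionVars false

namespace Pool.Agent.H.MP_a74ba6_co

open Finset

variable {V : Type} [DecidableEq V]

/-- a path of odd length with both ends in `K` and its `2 * T` inner vertices outside -/
structure Ear (A : V → V → Prop) (K : Finset V) (T : ℕ) (u : ℕ → V) : Prop where
  h0 : u 0 ∈ K
  h1 : u (2 * T + 1) ∈ K
  out : ∀ i, 1 ≤ i → i ≤ 2 * T → u i ∉ K
  inj : ∀ i j, 1 ≤ i → i ≤ 2 * T → 1 ≤ j → j ≤ 2 * T → u i = u j → i = j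
  adj : ∀ i, i ≤ 2 * T → A (u i) (u (i + 1))

/-- no two arcs out of one vertex leave a perfectly matched rest -/
def NoOut (A R : V → V → Prop) (W : Finset V) : Prop :=
  ∀ y ∈ W, ∀ a ∈ W, ∀ b ∈ W, a ≠ b → R y a → R y b → ¬ PM A (W \ {y, a, b})

/-- at most two neighbours inside `W` -/
def Deg2 (A : V → V → Prop) (W : Finset V) (x : V) : Prop :=
  ∃ p q, ∀ w ∈ W, A x w → w = p ∨ w = q

/-- the image of an index set is perfectly matched -/
def PJ (A : V → V → Prop) (u : ℕ → V) (P : ℕ → Prop) : Prop :=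
  ∃ J : Finset ℕ, (∀ i, i ∈ J ↔ P i) ∧ PM A (J.image u)

variable {A R : V → V → Prop} {K : Finset V} {T : ℕ} {u : ℕ → V}

theorem Ear.inj' (h : Ear A K T u) (lo : ℕ) (hlo : lo ≤ 1) (i j : ℕ) (h1 : lo ≤ i)
    (h2 : i ≤ lo + 2 * T) (h3 : lo ≤ j) (h4 : j ≤ lo + 2 * T) (e : u i = u j) : i = j := by
  by_cases hi : 1 ≤ i ∧ i ≤ 2 * T <;> by_cases hj : 1 ≤ j ∧ j ≤ 2 * T
  · exact h.inj i j hi.1 hi.2 hj.1 hj.2 e
  · have : j = 0 ∨ j = 2 * T + 1 := by omega
    rcases this with rfl | rfl
    · exact absurd (e ▸ h.h0) (h.out i hi.1 hi.2)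
    · exact absurd (e ▸ h.h1) (h.out i hi.1 hi.2)
  · have : i = 0 ∨ i = 2 * T + 1 := by omega
    rcases this with rfl | rfl
    · exact absurd (e ▸ h.h0) (h.out j hj.1 hj.2)
    · exact absurd (e ▸ h.h1) (h.out j hj.1 hj.2)
  · omega

theorem Ear.seg (h : Ear A K T u) (lo : ℕ) (hlo : lo ≤ 1) (i j : ℕ) (h1 : lo ≤ i) (h2 : i ≤ j)
    (h3 : j ≤ lo + 2 * T + 1) (h4 : (j - i) % 2 = 0) : PJ A u (fun m => i ≤ m ∧ m < j) := by
  obtain ⟨n, rfl⟩ : ∃ n, j = i + 2 * n := ⟨(j - i) / 2, by omega⟩
  refine ⟨Ico i (i + 2 * n), fun m => mem_Ico, Pool.Agent.H.MP_a74ba6_co.seg u i n ?_ ?_⟩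
  · intro p q a b c d e
    exact h.inj' lo hlo p q (by omega) (by omega) (by omega) (by omega) e
  · intro p a b
    exact h.adj p (by omega)

theorem Ear.pair (h : Ear A K T u) (i j : ℕ) (h1 : 1 ≤ i) (h2 : i < j) (h3 : j ≤ 2 * T)
    (hij : A (u i) (u j)) : PJ A u (fun m => m = i ∨ m = j) := by
  refine ⟨{i, j}, fun m => by simp, ?_⟩
  refine PM.nil.add hij (fun e => ?_) (by simp) (by simp) (fun v => by simp)
  have := h.inj i j h1 (by omega) (by omega) h3 e
  omega

theorem Ear.un (h : Ear A K T u) (lo : ℕ) (hlo : lo ≤ 1) {P Q : ℕ → Prop} (hP : PJ A u P)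
    (hQ : PJ A u Q) (hd : ∀ m, P m → Q m → False)
    (hr : ∀ m, P m ∨ Q m → lo ≤ m ∧ m ≤ lo + 2 * T) : PJ A u (fun m => P m ∨ Q m) := by
  obtain ⟨J, hJ, pJ⟩ := hP
  obtain ⟨J', hJ', pJ'⟩ := hQ
  refine ⟨J ∪ J', fun m => by rw [mem_union, hJ, hJ'], ?_⟩
  rw [image_union]
  refine pJ.union pJ' (disjoint_left.2 fun v hv hv' => ?_)
  obtain ⟨p, hp, rfl⟩ := mem_image.1 hv
  obtain ⟨q, hq, e⟩ := mem_image.1 hv'
  have a := hr p (Or.inl ((hJ p).1 hp))
  have b := hr q (Or.inr ((hJ' q).1 hq))
  have := h.inj' lo hlo q p b.1 b.2 a.1 a.2 e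
  subst this
  exact hd q ((hJ q).1 hp) ((hJ' q).1 hq)

theorem Ear.nice (h : Ear A K T u) (hK : FC A K) (lo : ℕ) (hlo : lo ≤ 1) (X : Finset ℕ)
    (hX : ∀ i ∈ X, lo ≤ i ∧ i ≤ lo + 2 * T) {P : ℕ → Prop} (hP : PJ A u P)
    (hPX : ∀ m, P m ↔ (lo ≤ m ∧ m ≤ lo + 2 * T ∧ m ∉ X)) :
    PM A ((K ∪ (Icc 1 (2 * T)).image u) \ X.image u) := by
  obtain ⟨J, hJ, pJ⟩ := hP
  obtain ⟨c, hc1, hc2, hc3, hcK⟩ : ∃ c, lo ≤ c ∧ c ≤ lo + 2 * T ∧
      (∀ m, lo ≤ m → m ≤ lo + 2 * T → m = c ∨ (1 ≤ m ∧ m ≤ 2 * T)) ∧ u c ∈ K := by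
    by_cases h0 : lo = 0
    · exact ⟨0, by omega, by omega, fun m _ _ => by omega, h.h0⟩
    · exact ⟨2 * T + 1, by omega, by omega, fun m _ _ => by omega, h.h1⟩
  have key : ∀ m, lo ≤ m → m ≤ lo + 2 * T → u m ∉ K.erase (u c) := by
    intro m a b hm
    rcases hc3 m a b with rfl | hm'
    · simp at hm
    · exact h.out m hm'.1 hm'.2 (mem_of_mem_erase hm)
  refine ((hK _ hcK).union pJ (disjoint_left.2 fun v hv hv' => ?_)).of_iff fun v => ?_
  · obtain ⟨p, hp, rfl⟩ := mem_image.1 hv'
    have := (hPX p).1 ((hJ p).1 hp)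
    exact key p this.1 this.2.1 hv
  · simp only [mem_sdiff, mem_union, mem_image, mem_Icc, not_exists, not_and]
    constructor
    · rintro ⟨hv | ⟨p, hp, rfl⟩, hn⟩
      · by_cases e : v = u c
        · right
          refine ⟨c, (hJ c).2 ((hPX c).2 ⟨hc1, hc2, fun hc => hn c hc e.symm⟩), e.symm⟩
        · left
          exact mem_erase.2 ⟨e, hv⟩
      · right
        exact ⟨p, (hJ p).2 ((hPX p).2 ⟨by omega, by omega, fun hc => hn p hc rfl⟩), rfl⟩
    · rintro (hv | ⟨p, hp, rfl⟩)
      · refine ⟨Or.inl (mem_of_mem_erase hv), fun i hi e => ?_⟩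
        exact key i (hX i hi).1 (hX i hi).2 (e ▸ hv)
      · have hp' := (hPX p).1 ((hJ p).1 hp)
        refine ⟨?_, fun i hi e => ?_⟩
        · rcases hc3 p hp'.1 hp'.2.1 with rfl | hm
          · exact Or.inl hcK
          · exact Or.inr ⟨p, hm, rfl⟩
        · have := h.inj' lo hlo i p (hX i hi).1 (hX i hi).2 hp'.1 hp'.2.1 e
          exact hp'.2.2 (this ▸ hi)

theorem Ear.fc (h : Ear A K T u) (hK : FC A K) : FC A (K ∪ (Icc 1 (2 * T)).image u) := by
  intro x hx
  rcases mem_union.1 hx with hxK | hxP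
  · obtain ⟨J, hJ, pJ⟩ := h.seg 0 (by omega) 1 (2 * T + 1) (by omega) (by omega) (by omega)
      (by omega)
    have hJ' : J = Icc 1 (2 * T) := by
      ext m
      rw [hJ, mem_Icc]
      omega
    subst hJ'
    refine ((hK x hxK).union pJ (disjoint_left.2 fun v hv hv' => ?_)).of_iff fun v => ?_
    · obtain ⟨p, hp, rfl⟩ := mem_image.1 hv'
      rw [mem_Icc] at hp
      exact h.out p hp.1 hp.2 (mem_of_mem_erase hv)
    · simp only [mem_erase, mem_union]
      constructor
      · tauto
      · rintro (hv | hv)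
        · tauto
        · refine ⟨fun e => ?_, Or.inr hv⟩
          obtain ⟨p, hp, rfl⟩ := mem_image.1 hv
          rw [mem_Icc] at hp
          exact h.out p hp.1 hp.2 (e ▸ hxK)
  · obtain ⟨i, hi, rfl⟩ := mem_image.1 hxP
    rw [mem_Icc] at hi
    have := h.nice hK (i % 2) (by omega) {i} (by simp; omega)
      (h.un (i % 2) (by omega)
        (h.seg (i % 2) (by omega) (i % 2) i le_rfl (by omega) (by omega) (by omega))
        (h.seg (i % 2) (by omega) (i + 1) (i % 2 + 2 * T + 1) (by omega) (by omega) le_rfl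
          (by omega)) (by intro m; omega) (by intro m; omega))
      (by intro m; simp only [mem_singleton]; omega)
    rw [image_singleton, sdiff_singleton_eq_erase] at this
    exact this

theorem Ear.card (h : Ear A K T u) : (K ∪ (Icc 1 (2 * T)).image u).card = K.card + 2 * T := by
  rw [card_union_of_disjoint, card_image_of_injOn, Nat.card_Icc]
  · omega
  · intro i hi j hj e
    have hi' := mem_Icc.1 (mem_coe.1 hi)
    have hj' := mem_Icc.1 (mem_coe.1 hj)
    exact h.inj i j hi'.1 hi'.2 hj'.1 hj'.2 e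
  · refine disjoint_left.2 fun v hv hv' => ?_
    obtain ⟨p, hp, rfl⟩ := mem_image.1 hv'
    rw [mem_Icc] at hp
    exact h.out p hp.1 hp.2 hv

/-- `K` is a largest proper factor-critical piece of `W` with a matched rest -/
def MaxP (A : V → V → Prop) (K W : Finset V) : Prop :=
  ∀ K', K ⊆ K' → K' ⊆ W → K.card < K'.card → FC A K' → PM A (W \ K') → K' = W

theorem Ear.skip (h : Ear A K T u) (hK : FC A K)
    (hmax : MaxP A K (K ∪ (Icc 1 (2 * T)).image u)) (a e : ℕ) (he : 1 ≤ e) (heT : e < T)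
    (hae : a + 2 * e ≤ 2 * T) (k0 k1 : V) (hk0 : k0 ∈ K) (hk1 : k1 ∈ K)
    (f0 : A k0 (u (if a = 0 then 2 * e + 1 else 1)))
    (f1 : A (u (if a + 2 * e = 2 * T then a else 2 * T)) k1)
    (fl : 0 < a → a + 2 * e < 2 * T → A (u a) (u (a + 2 * e + 1))) : False := by
  obtain ⟨T', rfl⟩ : ∃ T', T = T' + e := ⟨T - e, by omega⟩
  let φ : ℕ → ℕ := fun i => if i ≤ a then i else i + 2 * e
  let w : ℕ → V := fun i => if i = 0 then k0 else if i = 2 * T' + 1 then k1 else u (φ i)
  have hφ : ∀ i, (i ≤ a ∧ φ i = i) ∨ (a < i ∧ φ i = i + 2 * e) := by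
    intro i
    by_cases hi : i ≤ a
    · left; simp [φ, hi]
    · right; exact ⟨by omega, by simp [φ, hi]⟩
  have hw : ∀ i, 1 ≤ i → i ≤ 2 * T' → w i = u (φ i) := by
    intro i h1 h2
    have e1 : i ≠ 0 := by omega
    have e2 : i ≠ 2 * T' + 1 := by omega
    simp only [w, e1, e2, if_false]
  have hw0 : w 0 = k0 := by simp [w]
  have hw1 : w (2 * T' + 1) = k1 := by simp [w]
  have hE : Ear A K T' w := by
    refine ⟨hw0 ▸ hk0, hw1 ▸ hk1, ?_, ?_, ?_⟩
    · intro i h1 h2
      rw [hw i h1 h2]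
      have := hφ i
      exact h.out _ (by omega) (by omega)
    · intro i j h1 h2 h3 h4 e'
      rw [hw i h1 h2, hw j h3 h4] at e'
      have a1 := hφ i
      have a2 := hφ j
      have := h.inj _ _ (by omega) (by omega) (by omega) (by omega) e'
      omega
    · intro i hi
      by_cases hi0 : i = 0
      · subst hi0
        rw [hw0, hw (0 + 1) (by omega) (by omega)]
        have : φ (0 + 1) = if a = 0 then 2 * e + 1 else 1 := by
          have := hφ (0 + 1)
          split_ifs <;> omega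
        rw [this]
        exact f0
      by_cases hi1 : i = 2 * T'
      · subst hi1
        rw [hw1, hw _ (by omega) (by omega)]
        have : φ (2 * T') = if a + 2 * e = 2 * (T' + e) then a else 2 * (T' + e) := by
          have := hφ (2 * T')
          split_ifs <;> omega
        rw [this]
        exact f1
      rw [hw i (by omega) (by omega), hw (i + 1) (by omega) (by omega)]
      have a1 := hφ i
      have a2 := hφ (i + 1)
      by_cases hia : i = a
      · have e1 : φ i = a := by omega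
        have e2 : φ (i + 1) = a + 2 * e + 1 := by omega
        rw [e1, e2]
        exact fl (by omega) (by omega)
      · have e2 : φ (i + 1) = φ i + 1 := by omega
        rw [e2]
        exact h.adj _ (by omega)
  have hsub : (Icc 1 (2 * T')).image w ⊆ (Icc 1 (2 * (T' + e))).image u := by
    intro v hv
    obtain ⟨p, hp, rfl⟩ := mem_image.1 hv
    rw [mem_Icc] at hp
    have := hφ p
    exact mem_image.2 ⟨φ p, mem_Icc.2 (by omega), (hw p hp.1 hp.2).symm⟩
  obtain ⟨J, hJ, pJ⟩ := h.seg 0 (by omega) (a + 1) (a + 2 * e + 1) (by omega) (by omega) (by omega)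
    (by omega)
  have := hmax (K ∪ (Icc 1 (2 * T')).image w) subset_union_left (union_subset_union_right hsub)
    (by rw [hE.card]; omega) (hE.fc hK) (pJ.of_iff fun v => ?_)
  · have hc := congrArg Finset.card this
    rw [hE.card, h.card] at hc
    omega
  · simp only [mem_sdiff, mem_union, mem_image, mem_Icc, not_or, not_exists, not_and]
    constructor
    · rintro ⟨hv | ⟨p, hp, rfl⟩, hn1, hn2⟩
      · exact absurd hv hn1
      · refine ⟨p, (hJ p).2 ?_, rfl⟩
        by_contra hc
        by_cases hpa : p ≤ a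
        · have := hφ p
          refine hn2 p ⟨hp.1, by omega⟩ ?_
          rw [hw p hp.1 (by omega)]
          congr 1
          omega
        · have := hφ (p - 2 * e)
          refine hn2 (p - 2 * e) ⟨by omega, by omega⟩ ?_
          rw [hw _ (by omega) (by omega)]
          congr 1
          omega
    · rintro ⟨p, hp, rfl⟩
      have hp' := (hJ p).1 hp
      refine ⟨Or.inr ⟨p, ⟨by omega, by omega⟩, rfl⟩, h.out p (by omega) (by omega), fun i hi e' => ?_⟩
      rw [hw i hi.1 hi.2] at e'
      have := hφ i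
      have := h.inj _ _ (by omega) (by omega) (by omega) (by omega) e'
      omega

theorem three {W : Finset V} (hAR : ∀ a b, A a b ↔ R a b ∨ R b a) (h1 : NoOut A R W)
    (h2 : NoOut A (flip R) W) (y p q s : V) (hy : y ∈ W) (hp : p ∈ W) (hq : q ∈ W) (hs : s ∈ W)
    (ap : A y p) (aq : A y q) (as : A y s) (npq : p ≠ q) (nps : p ≠ s) (nqs : q ≠ s)
    (mpq : PM A (W \ {y, p, q})) (mps : PM A (W \ {y, p, s})) (mqs : PM A (W \ {y, q, s})) :
    False := by
  rcases (hAR _ _).1 ap with a | a <;> rcases (hAR _ _).1 aq with b | b <;>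
    rcases (hAR _ _).1 as with c | c
  · exact h1 y hy p hp q hq npq a b mpq
  · exact h1 y hy p hp q hq npq a b mpq
  · exact h1 y hy p hp s hs nps a c mps
  · exact h2 y hy q hq s hs nqs b c mqs
  · exact h1 y hy q hq s hs nqs b c mqs
  · exact h2 y hy p hp s hs nps a c mps
  · exact h2 y hy p hp q hq npq a b mpq
  · exact h2 y hy p hp q hq npq a b mpq

theorem Ear.mem (h : Ear A K T u) (i : ℕ) (hi : i ≤ 2 * T + 1) :
    u i ∈ K ∪ (Icc 1 (2 * T)).image u := by
  by_cases h0 : i = 0
  · subst h0; exact mem_union_left _ h.h0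
  by_cases h1 : i = 2 * T + 1
  · subst h1; exact mem_union_left _ h.h1
  exact mem_union_right _ (mem_image.2 ⟨i, mem_Icc.2 (by omega), rfl⟩)

theorem Ear.cross (h : Ear A K T u) (hK : FC A K) (hAR : ∀ a b, A a b ↔ R a b ∨ R b a)
    (h1 : NoOut A R (K ∪ (Icc 1 (2 * T)).image u))
    (h2 : NoOut A (flip R) (K ∪ (Icc 1 (2 * T)).image u)) (a b c d : ℕ) (ha : 1 ≤ a) (hab : a < b)
    (hbc : b < c) (hcd : c < d) (hd : d ≤ 2 * T) (pac : (c - a) % 2 = 0) (pbd : (d - b) % 2 = 0)
    (pab : (b - a) % 2 = 1) (eac : A (u a) (u c)) (ebd : A (u b) (u d)) : False := by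
  have hA : ∀ a b, A a b → A b a := fun a b h => (hAR _ _).2 ((hAR _ _).1 h).symm
  obtain ⟨a, rfl⟩ : ∃ a', a = a' + 1 := ⟨a - 1, by omega⟩
  have hl : a % 2 ≤ 1 := by omega
  have hl' : (a + 1) % 2 ≤ 1 := by omega
  refine three hAR h1 h2 (u (a + 1)) (u a) (u (a + 2)) (u c) (h.mem _ (by omega))
    (h.mem _ (by omega)) (h.mem _ (by omega)) (h.mem _ (by omega)) (hA _ _ (h.adj a (by omega)))
    (h.adj (a + 1) (by omega)) eac ?_ ?_ ?_ ?_ ?_ ?_
  · intro e
    have := h.inj' 0 (by omega) _ _ (by omega) (by omega) (by omega) (by omega) e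
    omega
  · intro e
    have := h.inj' 0 (by omega) _ _ (by omega) (by omega) (by omega) (by omega) e
    omega
  · intro e
    have := h.inj' 0 (by omega) _ _ (by omega) (by omega) (by omega) (by omega) e
    omega
  · have := h.nice hK (a % 2) hl {a + 1, a, a + 2}
      (by intro i; simp only [mem_insert, mem_singleton]; omega)
      (h.un (a % 2) hl
        (h.seg (a % 2) hl (a % 2) a le_rfl (by omega) (by omega) (by omega))
        (h.seg (a % 2) hl (a + 3) (a % 2 + 2 * T + 1) (by omega) (by omega) le_rfl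
          (by omega)) (by intro m; omega) (by intro m; omega))
      (by intro m; simp only [mem_insert, mem_singleton]; omega)
    simpa only [image_insert, image_singleton] using this
  · have := h.nice hK (a % 2) hl {a + 1, a, c}
      (by intro i; simp only [mem_insert, mem_singleton]; omega)
      (h.un (a % 2) hl (h.un (a % 2) hl (h.un (a % 2) hl (h.un (a % 2) hl (h.un (a % 2) hl
        (h.seg (a % 2) hl (a % 2) a le_rfl (by omega) (by omega) (by omega))
        (h.seg (a % 2) hl (a + 2) b (by omega) (by omega) (by omega) (by omega))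
        (by intro m; omega) (by intro m; omega))
        (h.seg (a % 2) hl (b + 1) c (by omega) (by omega) (by omega) (by omega))
        (by intro m; omega) (by intro m; omega))
        (h.seg (a % 2) hl (c + 1) d (by omega) (by omega) (by omega) (by omega))
        (by intro m; omega) (by intro m; omega))
        (h.seg (a % 2) hl (d + 1) (a % 2 + 2 * T + 1) (by omega) (by omega) le_rfl (by omega))
        (by intro m; omega) (by intro m; omega))
        (h.pair b d (by omega) (by omega) hd ebd)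
        (by intro m; omega) (by intro m; omega))
      (by intro m; simp only [mem_insert, mem_singleton]; omega)
    simpa only [image_insert, image_singleton] using this
  · have := h.nice hK ((a + 1) % 2) hl' {a + 1, a + 2, c}
      (by intro i; simp only [mem_insert, mem_singleton]; omega)
      (h.un ((a + 1) % 2) hl' (h.un ((a + 1) % 2) hl'
        (h.seg ((a + 1) % 2) hl' ((a + 1) % 2) (a + 1) le_rfl (by omega) (by omega) (by omega))
        (h.seg ((a + 1) % 2) hl' (a + 3) c (by omega) (by omega) (by omega) (by omega))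
        (by intro m; omega) (by intro m; omega))
        (h.seg ((a + 1) % 2) hl' (c + 1) ((a + 1) % 2 + 2 * T + 1) (by omega) (by omega) le_rfl
          (by omega)) (by intro m; omega) (by intro m; omega))
      (by intro m; simp only [mem_insert, mem_singleton]; omega)
    simpa only [image_insert, image_singleton] using this

theorem Ear.long (h : Ear A K T u) (hK : FC A K) (hAR : ∀ a b, A a b ↔ R a b ∨ R b a)
    (hirr : ∀ a, ¬ A a a)
    (h1 : NoOut A R (K ∪ (Icc 1 (2 * T)).image u))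
    (h2 : NoOut A (flip R) (K ∪ (Icc 1 (2 * T)).image u))
    (hmax : MaxP A K (K ∪ (Icc 1 (2 * T)).image u)) (hT : 2 ≤ T) :
    ∃ m, 1 ≤ m ∧ m ≤ 2 * T ∧ Deg2 A (K ∪ (Icc 1 (2 * T)).image u) (u m) := by
  have hA : ∀ a b, A a b → A b a := fun a b h => (hAR _ _).2 ((hAR _ _).1 h).symm
  by_contra hno
  push Not at hno
  have odd : ∀ i j, 1 ≤ i → i + 3 ≤ j → j ≤ 2 * T → (j - i) % 2 = 1 → A (u i) (u j) → False := by
    intro i j a b c d e
    refine h.skip hK hmax i ((j - i) / 2) (by omega) (by omega) (by omega) _ _ h.h0 h.h1 ?_ ?_ ?_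
    · rw [if_neg (by omega)]
      exact h.adj 0 (by omega)
    · rw [if_neg (by omega)]
      exact h.adj _ le_rfl
    · intro _ _
      have : i + 2 * ((j - i) / 2) + 1 = j := by omega
      rw [this]
      exact e
  have chord : ∀ m, 2 ≤ m → m + 1 ≤ 2 * T → ∃ l, 1 ≤ l ∧ l ≤ 2 * T ∧ l ≠ m ∧ l % 2 = m % 2 ∧
      A (u m) (u l) := by
    intro m a b
    have hn := hno m (by omega) (by omega)
    unfold Deg2 at hn
    push Not at hn
    obtain ⟨w, hw, hmw, n1, n2⟩ := hn (u (m - 1)) (u (m + 1))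
    rcases mem_union.1 hw with hwK | hwP
    · exfalso
      by_cases hm : m % 2 = 1
      · refine h.skip hK hmax 0 (m / 2) (by omega) (by omega) (by omega) w _ hwK h.h1 ?_ ?_
          (by omega)
        · have : 2 * (m / 2) + 1 = m := by omega
          rw [if_pos rfl, this]
          exact hA _ _ hmw
        · rw [if_neg (by omega)]
          exact h.adj _ le_rfl
      · refine h.skip hK hmax m (T - m / 2) (by omega) (by omega) (by omega) _ w h.h0 hwK ?_ ?_
          (by omega)
        · rw [if_neg (by omega)]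
          exact h.adj 0 (by omega)
        · rw [if_pos (by omega)]
          exact hmw
    · obtain ⟨l, hl, rfl⟩ := mem_image.1 hwP
      rw [mem_Icc] at hl
      have e1 : l ≠ m - 1 := fun e => n1 (by rw [e])
      have e2 : l ≠ m + 1 := fun e => n2 (by rw [e])
      have e3 : l ≠ m := fun e => hirr (u m) (by rw [e] at hmw; exact hmw)
      refine ⟨l, hl.1, hl.2, e3, ?_, hmw⟩
      by_contra hp
      by_cases hlm : l < m
      · exact odd l m hl.1 (by omega) (by omega) (by omega) (hA _ _ hmw)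
      · exact odd m l (by omega) (by omega) hl.2 (by omega) hmw
  have main : ∀ δ i j, j - i = δ → 1 ≤ i → i < j → j ≤ 2 * T → (j - i) % 2 = 0 →
      A (u i) (u j) → False := by
    intro δ
    induction δ using Nat.strong_induction_on with
    | _ δ ih =>
      intro i j hδ a b c d e
      obtain ⟨l, l1, l2, l3, l4, l5⟩ := chord (i + 1) (by omega) (by omega)
      by_cases c1 : l < i + 1
      · exact h.cross hK hAR h1 h2 l i (i + 1) j l1 (by omega) (by omega) (by omega) c (by omega)
          d (by omega) (hA _ _ l5) e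
      · by_cases c2 : l < j
        · exact ih (l - (i + 1)) (by omega) (i + 1) l rfl (by omega) (by omega) l2 (by omega) l5
        · exact h.cross hK hAR h1 h2 i (i + 1) j l a (by omega) (by omega) (by omega) l2 d
            (by omega) (by omega) e l5
  obtain ⟨l, l1, l2, l3, l4, l5⟩ := chord 2 le_rfl (by omega)
  exact main _ 2 l rfl (by omega) (by omega) l2 (by omega) l5

end Pool.Agent.H.MP_a74ba6_co
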