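import Pool.Agent.H.MP_a74ba6_co.Two
import Pool.Agent.H.MP_a74ba6_co.Count
import Pool.Agent.H.MP_a74ba6_co.Dec

set_option autoImplicit false
set_option linter.unusedSectionVars false

namespace Pool.Agent.H.MP_a74ba6_co

open Finset

variable {V : Type} [Fintype V] [DecidableEq V] {A R : V → V → Prop}

theorem tails (hAR : ∀ a b, A a b ↔ R a b ∨ R b a) {P : Finset V} (h : PM A P) :
    ∃ S : Finset V, 2 * S.card ≤ P.card ∧ ∀ v ∈ P, v ∈ S ∨ ∃ s ∈ S, R s v := by
  induction h with
  | nil => exact ⟨∅, by simp, by simp⟩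
  | @cons P a b _ hab hne ha hb ih =>
    obtain ⟨S, h1, h2⟩ := ih
    have hc : (insert a (insert b P)).card = P.card + 2 := by
      rw [card_insert_of_notMem (by simp [hne, ha]), card_insert_of_notMem hb]
    have old : ∀ c, ∀ v ∈ P, v ∈ insert c S ∨ ∃ s ∈ insert c S, R s v := by
      intro c v hv
      rcases h2 v hv with q | ⟨s, hs, q⟩
      · exact Or.inl (mem_insert_of_mem q)
      · exact Or.inr ⟨s, mem_insert_of_mem hs, q⟩
    rcases (hAR _ _).1 hab with r | r
    · refine ⟨insert a S, by have := card_insert_le a S; omega, fun v hv => ?_⟩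
      simp only [mem_insert (a := v)] at hv
      rcases hv with rfl | rfl | hv
      · exact Or.inl (by simp)
      · exact Or.inr ⟨a, by simp, r⟩
      · exact old a v hv
    · refine ⟨insert b S, by have := card_insert_le b S; omega, fun v hv => ?_⟩
      simp only [mem_insert (a := v)] at hv
      rcases hv with rfl | rfl | hv
      · exact Or.inr ⟨b, by simp, r⟩
      · exact Or.inl (by simp)
      · exact old b v hv

theorem small (hAR : ∀ a b, A a b ↔ R a b ∨ R b a) (hanti : ∀ a b, R a b → ¬ R b a)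
    {K : Finset V} (h : ¬ NoOut A R K) :
    ∃ S : Finset V, 2 * S.card + 1 ≤ K.card ∧ ∀ v ∈ K, v ∈ S ∨ ∃ s ∈ S, R s v := by
  unfold NoOut at h
  push Not at h
  obtain ⟨y, hy, a, ha, b, hb, hab, ra, rb, hP⟩ := h
  obtain ⟨S, h1, h2⟩ := tails hAR hP
  have hya : y ≠ a := fun e => hanti _ _ ra (by rw [e] at ra ⊢; exact ra)
  have hyb : y ≠ b := fun e => hanti _ _ rb (by rw [e] at rb ⊢; exact rb)
  have hsub : ({y, a, b} : Finset V) ⊆ K := insert_subset hy (insert_subset ha (by simpa using hb))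
  have h3 : ({y, a, b} : Finset V).card = 3 := card_eq_three.2 ⟨y, a, b, hya, hyb, hab, rfl⟩
  rw [card_sdiff_of_subset hsub, h3] at h1
  have h4 := card_le_card hsub
  refine ⟨insert y S, by have := card_insert_le y S; omega, fun v hv => ?_⟩
  by_cases hm : v ∈ ({y, a, b} : Finset V)
  · simp only [mem_insert, mem_singleton] at hm
    rcases hm with rfl | rfl | rfl
    · exact Or.inl (by simp)
    · exact Or.inr ⟨y, by simp, ra⟩
    · exact Or.inr ⟨y, by simp, rb⟩
  · rcases h2 v (mem_sdiff.2 ⟨hv, hm⟩) with q | ⟨s, hs, q⟩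
    · exact Or.inl (mem_insert_of_mem q)
    · exact Or.inr ⟨s, mem_insert_of_mem hs, q⟩

theorem inner_even [DecidableRel A] (hAR : ∀ a b, A a b ↔ R a b ∨ R b a)
    (hanti : ∀ a b, R a b → ¬ R b a) (K : Finset V) :
    (∑ v ∈ K, (K.filter (A v)).card) % 2 = 0 := by
  classical
  have h1 : ∀ v ∈ K, (K.filter (A v)).card =
      ∑ u ∈ K, (if R v u then 1 else 0) + ∑ u ∈ K, (if R u v then 1 else 0) := by
    intro v _
    rw [card_filter, ← sum_add_distrib]
    refine sum_congr rfl fun u _ => ?_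
    by_cases p : R v u
    · simp [hAR, p, hanti _ _ p]
    · by_cases q : R u v <;> simp [hAR, p, q]
  rw [sum_congr rfl h1, sum_add_distrib, sum_comm]
  omega

theorem big [DecidableRel A] (hAR : ∀ a b, A a b ↔ R a b ∨ R b a)
    (hanti : ∀ a b, R a b → ¬ R b a) (r : ℕ) (hr : 3 ≤ r)
    (hreg : ∀ v, (univ.filter (A v)).card = r) {B : Finset V} {F : Finset (Finset V)}
    (h : Full A univ B F) {K : Finset V} (hK : K ∈ F) (hb : NoOut A R K) :
    r ≤ ∑ v ∈ K, (B.filter (A v)).card := by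
  have hirr : ∀ a, ¬ A a a := fun a e => by
    rcases (hAR _ _).1 e with e | e <;> exact hanti _ _ e e
  have hs : ∀ v ∈ K, (K.filter (A v)).card + (B.filter (A v)).card = r := by
    intro v hv
    rw [← hreg v, ← card_union_of_disjoint, ← filter_union]
    · congr 1
      ext u
      simp only [mem_filter, mem_union, mem_univ, true_and]
      exact ⟨fun q => q.2, fun q => ⟨h.cl K hK v hv u (mem_univ _) q, q⟩⟩
    · exact disjoint_left.2 fun u p q => h.dis K hK u (mem_filter.1 p).1 (mem_filter.1 q).1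
  obtain ⟨z, hz⟩ := h.toDec.ne hK
  by_cases h1 : K = {z}
  · subst h1
    have := hs z hz
    rw [filter_singleton, if_neg (hirr z)] at this
    simpa using this.ge
  have hin := noIn hAR hanti (h.fc K hK) hb
  obtain ⟨x, hx, hxz, dx⟩ := deg_two _ K le_rfl z hz A R hAR hirr (h.fc K hK) hb hin h1
  obtain ⟨x', hx', hxx, dx'⟩ := deg_two _ K le_rfl x hx A R hAR hirr (h.fc K hK) hb hin
    (fun e => hxz (by rw [e, mem_singleton] at hz; exact hz.symm))
  have d2 : ∀ v, Deg2 A K v → (K.filter (A v)).card ≤ 2 := by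
    rintro v ⟨p, q, hpq⟩
    refine le_trans (card_le_card (t := {p, q}) fun w hw => ?_) card_le_two
    rw [mem_filter] at hw
    simpa using hpq w hw.1 hw.2
  have e1 := hs x hx
  have e2 := hs x' hx'
  have e3 := d2 x dx
  have e4 := d2 x' dx'
  have e5 : ∑ v ∈ ({x', x} : Finset V), (B.filter (A v)).card ≤ ∑ v ∈ K, (B.filter (A v)).card :=
    sum_le_sum_of_subset (insert_subset hx' (by simpa using hx))
  rw [sum_pair hxx] at e5
  have e6 := sum_congr rfl hs
  rw [sum_add_distrib, sum_const, smul_eq_mul] at e6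
  have e7 := inner_even hAR hanti K
  have e8 := h.odd K hK
  by_cases r3 : r = 3
  · subst r3
    omega
  · omega

theorem main [DecidableRel A] (hAR : ∀ a b, A a b ↔ R a b ∨ R b a)
    (hanti : ∀ a b, R a b → ¬ R b a) (r : ℕ) (hr : 3 ≤ r)
    (hreg : ∀ v, (univ.filter (A v)).card = r) :
    ∃ S : Finset V, (∀ v, v ∉ S → ∃ s ∈ S, R s v) ∧ 2 * S.card ≤ Fintype.card V := by
  classical
  have hA : ∀ a b, A a b → A b a := fun a b h => (hAR _ _).2 ((hAR _ _).1 h).symm
  obtain ⟨B, F, h⟩ := decomp hA _ (univ : Finset V) (Nat.lt_succ_self _)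
  rcases isEmpty_or_nonempty V with hV | ⟨⟨v0⟩⟩
  · exact ⟨∅, fun v => hV.elim v, by simp⟩
  set Fb := F.filter (fun K => NoOut A R K) with hFb
  obtain ⟨χ, c1, c2⟩ := hall v0 Fb (fun K => B.filter (fun a => ∃ k ∈ K, A a k)) (by
    intro s hs
    set N := s.biUnion (fun K => B.filter (fun a => ∃ k ∈ K, A a k)) with hN
    have hsF : ∀ K ∈ s, K ∈ F := fun K hK => (mem_filter.1 (hs hK)).1
    have a1 : ∀ K ∈ s, r ≤ ∑ v ∈ K, (N.filter (A v)).card := by
      intro K hK
      refine (big hAR hanti r hr hreg h (hsF K hK) (mem_filter.1 (hs hK)).2).trans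
        (sum_le_sum fun v hv => card_le_card fun a ha => ?_)
      rw [mem_filter] at ha ⊢
      exact ⟨mem_biUnion.2 ⟨K, hK, mem_filter.2 ⟨ha.1, v, hv, hA _ _ ha.2⟩⟩, ha.2⟩
    have a2 := sum_le_sum a1
    rw [← sum_biUnion (t := fun K => K) (fun K hK K' hK' hne =>
      disjoint_left.2 fun v p q => hne (h.pw K (hsF K hK) K' (hsF K' hK') v p q))] at a2
    have a3 : ∑ v ∈ s.biUnion (fun K => K), (N.filter (A v)).card ≤
        ∑ v, (N.filter (A v)).card := sum_le_sum_of_subset (subset_univ _)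
    have a4 : ∑ v, (N.filter (A v)).card = ∑ a ∈ N, r := by
      simp only [card_filter]
      rw [sum_comm]
      refine sum_congr rfl fun a _ => ?_
      rw [← hreg a, card_filter]
      refine sum_congr rfl fun v _ => ?_
      by_cases p : A v a
      · simp [p, hA _ _ p]
      · have q : ¬ A a v := fun q => p (hA _ _ q)
        simp [p, q]
    simp only [sum_const, smul_eq_mul] at a2 a4
    exact Nat.le_of_mul_le_mul_right (a2.trans (a3.trans a4.le)) (by omega))
  have ex : ∀ K ∈ F, ∃ S : Finset V,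
      2 * S.card + 1 ≤ K.card + 2 * (if NoOut A R K then 1 else 0) ∧
      (∀ v ∈ K, v ∈ S ∨ ∃ s ∈ S, R s v) ∧
      (NoOut A R K → χ K ∈ S ∨ ∃ s ∈ S, R s (χ K)) := by
    intro K hK
    by_cases hb : NoOut A R K
    · have := c1 K (mem_filter.2 ⟨hK, hb⟩)
      rw [mem_filter] at this
      obtain ⟨hB, k, hk, e⟩ := this
      have hn : χ K ∉ K := fun q => h.dis K hK _ q hB
      obtain ⟨S, s1, s2⟩ := tails hAR ((h.fc K hK).ins hn hk e)
      rw [card_insert_of_notMem hn] at s1
      exact ⟨S, by rw [if_pos hb]; omega, fun v hv => s2 v (mem_insert_of_mem hv),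
        fun _ => s2 _ (mem_insert_self _ _)⟩
    · obtain ⟨S, s1, s2⟩ := small hAR hanti hb
      exact ⟨S, by rw [if_neg hb]; omega, s2, fun q => absurd q hb⟩
  choose! S s1 s2 s3 using ex
  have lift : ∀ K ∈ F, ∀ v, (v ∈ S K ∨ ∃ s ∈ S K, R s v) → v ∉ F.biUnion S ∪ B \ Fb.image χ →
      ∃ s ∈ F.biUnion S ∪ B \ Fb.image χ, R s v := by
    rintro K hK v (q | ⟨s, hs, q⟩) hv
    · exact absurd (mem_union_left _ (mem_biUnion.2 ⟨K, hK, q⟩)) hv
    · exact ⟨s, mem_union_left _ (mem_biUnion.2 ⟨K, hK, hs⟩), q⟩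
  refine ⟨F.biUnion S ∪ B \ Fb.image χ, fun v hv => ?_, ?_⟩
  · rcases h.cov v (mem_univ _) with hB | ⟨K, hK, hvK⟩
    · have : v ∈ Fb.image χ := by
        by_contra q
        exact hv (mem_union_right _ (mem_sdiff.2 ⟨hB, q⟩))
      obtain ⟨K, hK, rfl⟩ := mem_image.1 this
      rw [mem_filter] at hK
      exact lift K hK.1 _ (s3 K hK.1 hK.2) hv
    · exact lift K hK v (s2 K hK v hvK) hv
  · have b1 := card_union_le (F.biUnion S) (B \ Fb.image χ)
    have b2 : (F.biUnion S).card ≤ ∑ K ∈ F, (S K).card := card_biUnion_le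
    have b3 : Fb.image χ ⊆ B := fun a ha => by
      obtain ⟨K, hK, rfl⟩ := mem_image.1 ha
      exact (mem_filter.1 (c1 K hK)).1
    have b4 : (Fb.image χ).card = Fb.card :=
      card_image_of_injOn fun a ha b hb e => c2 a ha b hb e
    have b5 := card_sdiff_of_subset b3
    have b6 := card_le_card b3
    have b7 := sum_le_sum s1
    rw [sum_add_distrib, sum_add_distrib, ← mul_sum, ← mul_sum, ← card_filter, ← hFb, sum_const,
      smul_eq_mul] at b7
    have b8 := h.card
    have b9 := h.le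
    rw [card_univ] at b8
    omega

end Pool.Agent.H.MP_a74ba6_co
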