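import Mathlib

set_option autoImplicit false
set_option linter.unusedSectionVars false

namespace Pool.Agent.H.MP_a74ba6_co

open Finset

variable {V : Type} [DecidableEq V]

/-- the finite set can be split into pairs related by `A` -/
inductive PM (A : V → V → Prop) : Finset V → Prop
  | nil : PM A ∅
  | cons {S : Finset V} {a b : V} : PM A S → A a b → a ≠ b → a ∉ S → b ∉ S →
      PM A (insert a (insert b S))

/-- factor-critical vertex set -/
def FC (A : V → V → Prop) (W : Finset V) : Prop := ∀ x ∈ W, PM A (W.erase x)

variable {A : V → V → Prop}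

theorem PM.of_iff {S T : Finset V} (h : PM A S) (e : ∀ v, v ∈ T ↔ v ∈ S) : PM A T := by
  have : T = S := Finset.ext e
  rw [this]; exact h

theorem PM.add {S T : Finset V} {a b : V} (h : PM A S) (hab : A a b) (hne : a ≠ b) (ha : a ∉ S)
    (hb : b ∉ S) (e : ∀ v, v ∈ T ↔ v = a ∨ v = b ∨ v ∈ S) : PM A T :=
  (PM.cons h hab hne ha hb).of_iff (fun v => by rw [e v]; simp)

theorem PM.elim (hA : ∀ a b, A a b → A b a) {S : Finset V} (h : PM A S) :
    ∀ x ∈ S, ∃ y ∈ S, y ≠ x ∧ A x y ∧ PM A (S \ {x, y}) := by
  induction h with
  | nil => intro x hx; simp at hx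
  | @cons S a b hS hab hne ha hb ih =>
    intro x hx
    by_cases hxa : x = a
    · subst hxa
      refine ⟨b, by simp, hne.symm, hab, hS.of_iff fun v => ?_⟩
      simp only [mem_sdiff, mem_insert, mem_singleton]
      constructor
      · tauto
      · intro hv
        refine ⟨by tauto, ?_⟩
        rintro (rfl | rfl)
        · exact ha hv
        · exact hb hv
    by_cases hxb : x = b
    · subst hxb
      refine ⟨a, by simp, hne, hA _ _ hab, hS.of_iff fun v => ?_⟩
      simp only [mem_sdiff, mem_insert, mem_singleton]
      constructor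
      · tauto
      · intro hv
        refine ⟨by tauto, ?_⟩
        rintro (rfl | rfl)
        · exact hb hv
        · exact ha hv
    have hxS : x ∈ S := by simpa [hxa, hxb] using hx
    obtain ⟨y, hy, hyx, hxy, hP⟩ := ih x hxS
    refine ⟨y, by simp [hy], hyx, hxy, hP.add hab hne (by simp [ha]) (by simp [hb]) fun v => ?_⟩
    simp only [mem_sdiff, mem_insert, mem_singleton]
    constructor
    · tauto
    · rintro (rfl | rfl | hv)
      · refine ⟨by tauto, ?_⟩
        rintro (rfl | rfl)
        · exact ha hxS
        · exact ha hy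
      · refine ⟨by tauto, ?_⟩
        rintro (rfl | rfl)
        · exact hb hxS
        · exact hb hy
      · tauto

theorem PM.union {S T : Finset V} (hS : PM A S) (hT : PM A T) (hd : Disjoint S T) :
    PM A (S ∪ T) := by
  induction hS with
  | nil => simpa using hT
  | @cons S a b _ hab hne ha hb ih =>
    rw [disjoint_insert_left, disjoint_insert_left] at hd
    refine (ih hd.2.2).add hab hne (by simp [ha, hd.1]) (by simp [hb, hd.2.1]) fun v => ?_
    simp

theorem PM.mono {A' : V → V → Prop} (hAA : ∀ a b, A a b → A' a b) {S : Finset V} (h : PM A S) :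
    PM A' S := by
  induction h with
  | nil => exact PM.nil
  | cons _ hab hne ha hb ih => exact PM.cons ih (hAA _ _ hab) hne ha hb

theorem PM.even {S : Finset V} (h : PM A S) : S.card % 2 = 0 := by
  induction h with
  | nil => simp
  | @cons S a b _ hab hne ha hb ih =>
    rw [card_insert_of_notMem (by simp [hne, ha]), card_insert_of_notMem hb]
    omega

theorem PM.bUnion {ι : Type} [DecidableEq ι] (s : Finset ι) (f : ι → Finset V)
    (h : ∀ i ∈ s, PM A (f i)) (hd : ∀ i ∈ s, ∀ j ∈ s, i ≠ j → Disjoint (f i) (f j)) :
    PM A (s.biUnion f) := by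
  induction s using Finset.induction_on with
  | empty => simpa using PM.nil
  | insert i s hi ih =>
    rw [biUnion_insert]
    refine (h i (by simp)).union (ih (fun j hj => h j (by simp [hj]))
      (fun j hj k hk => hd j (by simp [hj]) k (by simp [hk]))) ?_
    rw [disjoint_biUnion_right]
    intro j hj
    exact hd i (by simp) j (by simp [hj]) (fun e => hi (e ▸ hj))

theorem FC.odd {W : Finset V} (h : FC A W) (hW : W.Nonempty) : W.card % 2 = 1 := by
  obtain ⟨x, hx⟩ := hW
  have := (h x hx).even
  rw [card_erase_of_mem hx] at this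
  have := card_pos.2 ⟨x, hx⟩
  omega

/-- simultaneous exchange along an alternating path -/
theorem exch (hA : ∀ a b, A a b → A b a) : ∀ (n : ℕ) (F F' : Finset V), F'.card ≤ n → F' ⊆ F →
    PM A F → PM A F' → ∀ s ∈ F, s ∉ F' →
      ∃ s' ∈ F, s' ∉ F' ∧ s' ≠ s ∧ PM A (F \ {s, s'}) ∧ PM A (insert s (insert s' F')) := by
  intro n
  induction n with
  | zero =>
    intro F F' hn _ hF hF' s hs hsF'
    obtain ⟨y, hy, hys, hsy, hP⟩ := hF.elim hA s hs
    have hyF : y ∉ F' := by
      rw [card_eq_zero.1 (Nat.le_zero.1 hn)]; simp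
    exact ⟨y, hy, hyF, hys, hP, PM.cons hF' hsy hys.symm hsF' hyF⟩
  | succ n ih =>
    intro F F' hn hsub hF hF' s hs hsF'
    obtain ⟨y, hy, hys, hsy, hP⟩ := hF.elim hA s hs
    by_cases hyF : y ∈ F'
    swap
    · exact ⟨y, hy, hyF, hys, hP, PM.cons hF' hsy hys.symm hsF' hyF⟩
    obtain ⟨y', hy', hy'y, hyy', hP'⟩ := hF'.elim hA y hyF
    have hy's : y' ≠ s := fun e => hsF' (e ▸ hy')
    have hlt : (F' \ {y, y'}).card < F'.card :=
      card_lt_card ⟨sdiff_subset, fun h => by simpa using h hyF⟩
    obtain ⟨s', hs'1, hs'2, hs'3, hQ, hQ'⟩ := ih (F \ {s, y}) (F' \ {y, y'}) (by omega)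
      (fun v hv => by
        simp only [mem_sdiff, mem_insert, mem_singleton, not_or] at hv ⊢
        exact ⟨hsub hv.1, fun e => hsF' (e ▸ hv.1), hv.2.1⟩)
      hP hP' y' (by simp [hsub hy', hy's, hy'y]) (by simp)
    simp only [mem_sdiff, mem_insert, mem_singleton, not_or] at hs'1 hs'2
    have hs'F' : s' ∉ F' := fun h => hs'2 ⟨h, hs'1.2.2, hs'3⟩
    refine ⟨s', hs'1.1, hs'F', hs'1.2.1, ?_, ?_⟩
    · refine hQ.add hyy' hy'y.symm (by simp) (by simp) fun v => ?_
      simp only [mem_sdiff, mem_insert, mem_singleton, not_or]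
      constructor
      · tauto
      · rintro (rfl | rfl | hv)
        · exact ⟨hy, hys, fun e => hs'1.2.2 e.symm⟩
        · exact ⟨hsub hy', hy's, fun e => hs'3 e.symm⟩
        · tauto
    · refine hQ'.add hsy hys.symm ?_ ?_ fun v => ?_
      · simp only [mem_sdiff, mem_insert, mem_singleton, not_or]
        exact ⟨hy's.symm, fun e => hs'1.2.1 e.symm, fun h => hsF' h.1⟩
      · simp only [mem_sdiff, mem_insert, mem_singleton, not_or]
        exact ⟨hy'y.symm, fun e => hs'1.2.2 e.symm, fun h => h.2.1 trivial⟩
      · simp only [mem_sdiff, mem_insert, mem_singleton, not_or]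
        constructor
        · tauto
        · rintro (rfl | rfl | rfl | rfl | hv)
          · tauto
          · tauto
          · tauto
          · tauto
          · tauto

/-- an alternating path from `s` into `K` -/
theorem ear_path (hA : ∀ a b, A a b → A b a) (K : Finset V) : ∀ (n : ℕ) (R : Finset V),
    R.card ≤ n → PM A R → Disjoint K R → ∀ s ∈ R, PM A (R.erase s ∪ K) →
      ∃ (t : ℕ) (v : ℕ → V), v 0 = s ∧ (∀ i j, i < 2 * t + 2 → j < 2 * t + 2 → v i = v j → i = j) ∧
        (∀ i, i < 2 * t + 2 → v i ∈ R) ∧ (∀ i, i + 1 < 2 * t + 2 → A (v i) (v (i + 1))) ∧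
        (∃ k ∈ K, A (v (2 * t + 1)) k) ∧ PM A (R \ (range (2 * t + 2)).image v) := by
  intro n
  induction n with
  | zero =>
    intro R hn _ _ s hs
    rw [card_eq_zero.1 (Nat.le_zero.1 hn)] at hs
    simp at hs
  | succ n ih =>
    intro R hn hR hd s hs hF
    obtain ⟨y, hy, hys, hsy, hP⟩ := hR.elim hA s hs
    obtain ⟨y', hy', hy'y, hyy', hP'⟩ := hF.elim hA y (by simp [hy, hys])
    by_cases hK : y' ∈ K
    · refine ⟨0, fun i => if i = 0 then s else y, by simp, ?_, ?_, ?_, ⟨y', hK, by simpa using hyy'⟩, ?_⟩
      · intro i j hi hj e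
        have hi' : i = 0 ∨ i = 1 := by omega
        have hj' : j = 0 ∨ j = 1 := by omega
        rcases hi' with rfl | rfl <;> rcases hj' with rfl | rfl
        · rfl
        · exact absurd e.symm (by simpa using hys)
        · exact absurd e (by simpa using hys)
        · rfl
      · intro i _
        by_cases h : i = 0 <;> simp [h, hs, hy]
      · intro i hi
        have : i = 0 := by omega
        subst this
        simpa using hsy
      · convert hP using 2
        rw [show range (2 * 0 + 2) = {0, 1} by decide]
        simp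
    have hy'R : y' ∈ R ∧ y' ≠ s := by
      simp only [mem_union, mem_erase] at hy'
      tauto
    have hlt : (R \ {s, y}).card < R.card :=
      card_lt_card ⟨sdiff_subset, fun h => by simpa using h hs⟩
    obtain ⟨t, w, w0, winj, wR, wadj, wk, wP⟩ := ih (R \ {s, y}) (by omega) hP
      (hd.mono_right sdiff_subset) y' (by simp [hy'R.1, hy'R.2, hy'y])
      (hP'.of_iff fun v => by
        simp only [mem_sdiff, mem_insert, mem_singleton, not_or, mem_union, mem_erase]
        constructor
        · rintro (h | h)
          · tauto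
          · exact ⟨Or.inr h, fun e => disjoint_left.1 hd h (e ▸ hy), fun e => hK (e ▸ h)⟩
        · tauto)
    have wR' : ∀ i, i < 2 * t + 2 → w i ∈ R ∧ w i ≠ s ∧ w i ≠ y := by
      intro i hi
      simpa [not_or] using wR i hi
    refine ⟨t + 1, fun i => if i = 0 then s else if i = 1 then y else w (i - 2), by simp,
      ?_, ?_, ?_, ?_, ?_⟩
    · intro i j hi hj e
      by_cases hi0 : i = 0 <;> by_cases hj0 : j = 0
      · omega
      · by_cases hj1 : j = 1
        · simp only [hi0, hj1, if_true, one_ne_zero, if_false] at e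
          exact absurd e.symm hys
        · simp only [hi0, hj0, hj1, if_true, if_false] at e
          exact absurd e.symm (wR' _ (by omega)).2.1
      · by_cases hi1 : i = 1
        · simp only [hj0, hi1, if_true, one_ne_zero, if_false] at e
          exact absurd e hys
        · simp only [hi0, hj0, hi1, if_true, if_false] at e
          exact absurd e (wR' _ (by omega)).2.1
      · by_cases hi1 : i = 1 <;> by_cases hj1 : j = 1
        · omega
        · simp only [hi1, hj0, hj1, if_true, one_ne_zero, if_false] at e
          exact absurd e.symm (wR' _ (by omega)).2.2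
        · simp only [hi1, hi0, hj1, if_true, one_ne_zero, if_false] at e
          exact absurd e (wR' _ (by omega)).2.2
        · simp only [hi0, hi1, hj0, hj1, if_false] at e
          have := winj _ _ (by omega) (by omega) e
          omega
    · intro i hi
      by_cases hi0 : i = 0
      · simp [hi0, hs]
      · by_cases hi1 : i = 1
        · simp [hi1, hy]
        · simp only [hi0, hi1, if_false]
          exact (wR' _ (by omega)).1
    · intro i hi
      by_cases hi0 : i = 0
      · simpa [hi0] using hsy
      · by_cases hi1 : i = 1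
        · simpa [hi1, w0] using hyy'
        · have e1 : i + 1 ≠ 0 := by omega
          have e2 : i + 1 ≠ 1 := by omega
          have e3 : i + 1 - 2 = i - 2 + 1 := by omega
          simp only [hi0, hi1, e1, e2, e3, if_false]
          exact wadj _ (by omega)
    · have e1 : 2 * (t + 1) + 1 ≠ 0 := by omega
      have e2 : 2 * (t + 1) + 1 ≠ 1 := by omega
      have e3 : 2 * (t + 1) + 1 - 2 = 2 * t + 1 := by omega
      simp only [e1, e2, e3, if_false]
      exact wk
    · refine wP.of_iff fun v => ?_
      simp only [mem_sdiff, mem_insert, mem_singleton, not_or, mem_image, mem_range, not_exists,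
        not_and]
      constructor
      · rintro ⟨h1, h2⟩
        refine ⟨⟨h1, fun e => h2 0 (by omega) (by simp [e]), fun e => h2 1 (by omega) (by simp [e])⟩,
          fun i hi e => h2 (i + 2) (by omega) (by simpa using e)⟩
      · rintro ⟨⟨h1, h2, h3⟩, h4⟩
        refine ⟨h1, fun i hi e => ?_⟩
        by_cases hi0 : i = 0
        · simp only [hi0, if_true] at e
          exact h2 e.symm
        · by_cases hi1 : i = 1
          · simp only [hi1, one_ne_zero, if_true, if_false] at e
            exact h3 e.symm
          · simp only [hi0, hi1, if_false] at e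
            exact h4 _ (by omega) e

theorem seg (u : ℕ → V) (i : ℕ) : ∀ n : ℕ,
    (∀ p q, i ≤ p → p < i + 2 * n → i ≤ q → q < i + 2 * n → u p = u q → p = q) →
    (∀ p, i ≤ p → p + 1 < i + 2 * n → A (u p) (u (p + 1))) →
    PM A ((Ico i (i + 2 * n)).image u) := by
  intro n
  induction n with
  | zero => intro _ _; simpa using PM.nil
  | succ n ih =>
    intro hinj hadj
    have nm : ∀ q, i + 2 * n ≤ q → q < i + 2 * (n + 1) → u q ∉ (Ico i (i + 2 * n)).image u := by
      intro q h1 h2 hm
      obtain ⟨p, hp, e⟩ := mem_image.1 hm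
      rw [mem_Ico] at hp
      have := hinj p q (by omega) (by omega) (by omega) (by omega) e
      omega
    refine (ih (fun p q h1 h2 h3 h4 => hinj p q h1 (by omega) h3 (by omega))
      (fun p h1 h2 => hadj p h1 (by omega))).add (hadj (i + 2 * n) (by omega) (by omega))
      (fun e => by
        have := hinj _ _ (by omega) (by omega) (by omega) (by omega) e
        omega) (nm _ le_rfl (by omega)) (nm _ (by omega) (by omega)) fun v => ?_
    simp only [mem_image, mem_Ico]
    constructor
    · rintro ⟨p, hp, rfl⟩
      by_cases h1 : p = i + 2 * n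
      · exact Or.inl (by rw [h1])
      · by_cases h2 : p = i + 2 * n + 1
        · exact Or.inr (Or.inl (by rw [h2]))
        · exact Or.inr (Or.inr ⟨p, by omega, rfl⟩)
    · rintro (rfl | rfl | ⟨p, hp, rfl⟩)
      · exact ⟨_, by omega, rfl⟩
      · exact ⟨_, by omega, rfl⟩
      · exact ⟨p, by omega, rfl⟩

end Pool.Agent.H.MP_a74ba6_co
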