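import Pool.Agent.H.MP_a74ba6_co.Ear

set_option autoImplicit false
set_option linter.unusedSectionVars false

namespace Pool.Agent.H.MP_a74ba6_co

open Finset

variable {V : Type} [DecidableEq V]

/-- an arc `v1 v2` added to a factor-critical set `K` -/
structure Pr (A R : V → V → Prop) (K : Finset V) (v1 v2 : V) : Prop where
  hAR : ∀ a b, A a b ↔ R a b ∨ R b a
  irr : ∀ a, ¬ A a a
  n1 : v1 ∉ K
  n2 : v2 ∉ K
  arc : R v1 v2
  fc : FC A K
  o1 : NoOut A R (insert v1 (insert v2 K))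
  o2 : NoOut A (flip R) (insert v1 (insert v2 K))

/-- arcs of `R` together with all shortcuts through `v1 v2` -/
def RR (A R : V → V → Prop) (K : Finset V) (v1 v2 : V) (a b : V) : Prop :=
  R a b ∨ (a ∈ K ∧ b ∈ K ∧ A a v1 ∧ A b v2 ∧ a ≠ b)

/-- the edges of `RR` -/
def AA (A R : V → V → Prop) (K : Finset V) (v1 v2 : V) (a b : V) : Prop :=
  RR A R K v1 v2 a b ∨ RR A R K v1 v2 b a

variable {A R : V → V → Prop} {K : Finset V} {v1 v2 : V}

theorem Pr.symm (h : Pr A R K v1 v2) (a b : V) (e : A a b) : A b a :=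
  (h.hAR _ _).2 ((h.hAR _ _).1 e).symm

theorem Pr.ne (h : Pr A R K v1 v2) {a b : V} (e : R a b) : a ≠ b := by
  rintro rfl
  exact h.irr a ((h.hAR _ _).2 (Or.inl e))

theorem Pr.flp (h : Pr A R K v1 v2) : Pr A (flip R) K v2 v1 :=
  ⟨fun a b => (h.hAR a b).trans or_comm, h.irr, h.n2, h.n1, h.arc, h.fc,
    by rw [insert_comm]; exact h.o2, by rw [insert_comm]; exact h.o1⟩

theorem Pr.t1 (h : Pr A R K v1 v2) {w : V} (hw : w ∈ K) (e : A w v1) : R w v1 := by
  rcases (h.hAR _ _).1 e with e | e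
  · exact e
  · exfalso
    refine h.o1 v1 (by simp) v2 (by simp) w (by simp [hw]) (fun e' => h.n2 (e' ▸ hw)) h.arc e
      ((h.fc w hw).of_iff fun v => ?_)
    simp only [mem_sdiff, mem_insert, mem_singleton, not_or, mem_erase]
    constructor
    · tauto
    · intro hv
      exact ⟨Or.inr (Or.inr hv.2), fun e => h.n1 (e ▸ hv.2), fun e => h.n2 (e ▸ hv.2), hv.1⟩

theorem Pr.c1 (h : Pr A R K v1 v2) {w w' u : V} (hw : w ∈ K) (hw' : w' ∈ K) (hu : u ∈ K)
    (e1 : A w v1) (e2 : A w' v1) (e3 : A u v2) (m1 : w ≠ w') (m2 : u ≠ w) (m3 : u ≠ w')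
    (hP : PM A (K \ {w, w', u})) : False := by
  refine h.o2 v1 (by simp) w (by simp [hw]) w' (by simp [hw']) m1 (h.t1 hw e1) (h.t1 hw' e2)
    (hP.add e3 (fun e => h.n2 (e ▸ hu)) (by simp) (by simp [h.n2]) fun v => ?_)
  simp only [mem_sdiff, mem_insert, mem_singleton, not_or]
  constructor
  · tauto
  · rintro (rfl | rfl | hv)
    · exact ⟨Or.inr (Or.inr hu), fun e => h.n1 (e ▸ hu), m2, m3⟩
    · exact ⟨Or.inr (Or.inl rfl), (h.ne h.arc).symm, fun e => h.n2 (e ▸ hw), fun e => h.n2 (e ▸ hw')⟩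
    · exact ⟨Or.inr (Or.inr hv.1), fun e => h.n1 (e ▸ hv.1), hv.2.1, hv.2.2.1⟩

theorem Pr.bad (h : Pr A R K v1 v2) {w s s' : V} (hw : w ∈ K) (hs : s ∈ K) (hs' : s' ∈ K)
    (e1 : A w v1) (e2 : A s v2) (e3 : A s' v1 ∨ A s' v2) (m1 : s ≠ w) (m2 : s' ≠ w) (m3 : s' ≠ s)
    (hP : PM A (K.erase w \ {s, s'})) : False := by
  rcases e3 with e3 | e3
  · refine h.c1 hw hs' hs e1 e3 e2 m2.symm m1 m3.symm (hP.of_iff fun v => ?_)
    simp only [mem_sdiff, mem_insert, mem_singleton, not_or, mem_erase]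
    tauto
  · refine h.flp.c1 hs hs' hw e2 e3 e1 m3.symm m1.symm m2.symm (hP.of_iff fun v => ?_)
    simp only [mem_sdiff, mem_insert, mem_singleton, not_or, mem_erase]
    tauto

theorem Pr.twoNew (h : Pr A R K v1 v2) (F : Finset V) (hF : F ⊆ K) (pF : PM A F) (b : V)
    (hb : ∀ x ∈ K, x ∉ F → (A x v1 ∨ A x v2) ∨ x = b) (w u1 u2 : V) (hw : w ∈ K) (h1 : u1 ∈ K)
    (h2 : u2 ∈ K) (fw : w ∉ F) (f1 : u1 ∉ F) (f2 : u2 ∉ F) (e0 : A w v1) (e1 : A u1 v2)
    (e2 : A u2 v2) (m1 : w ≠ u1) (m2 : w ≠ u2) (m3 : u1 ≠ u2) : False := by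
  have hsub : F ⊆ K.erase w := fun v hv => mem_erase.2 ⟨fun e => fw (e ▸ hv), hF hv⟩
  obtain ⟨s, hs, hsF, hsu, hP, hP'⟩ := exch h.symm _ (K.erase w) F le_rfl hsub (h.fc w hw) pF u1
    (mem_erase.2 ⟨m1.symm, h1⟩) f1
  rw [mem_erase] at hs
  by_cases hn : A s v1 ∨ A s v2
  · exact h.bad hw h1 hs.2 e0 e1 hn m1.symm hs.1 hsu hP
  have hsb : s = b := (hb s hs.2 hsF).resolve_left hn
  have hu2 : u2 ≠ s := fun e => hn (Or.inr (e ▸ e2))
  obtain ⟨s', hs', hsF', hsu', hQ, _⟩ := exch h.symm _ (K.erase w) (insert u1 (insert s F)) le_rfl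
    (insert_subset (mem_erase.2 ⟨m1.symm, h1⟩) (insert_subset (mem_erase.2 hs) hsub))
    (h.fc w hw) hP' u2 (mem_erase.2 ⟨m2.symm, h2⟩) (by simp [m3.symm, hu2, f2])
  rw [mem_erase] at hs'
  simp only [mem_insert, not_or] at hsF'
  refine h.bad hw h2 hs'.2 e0 e2 ((hb s' hs'.2 hsF'.2.2).resolve_right ?_) m2.symm hs'.1 hsu' hQ
  rw [← hsb]
  exact hsF'.2.1

theorem Pr.split (h : Pr A R K v1 v2) {S : Finset V} (hS : PM (AA A R K v1 v2) S) :
    ∃ X ⊆ S, PM A (S \ X) ∧ (∀ x ∈ X, A x v1 ∨ A x v2) ∧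
      (X = ∅ ∨ (∃ w u, A w v1 ∧ A u v2 ∧ w ≠ u ∧ X = {w, u}) ∨
        ∃ w ∈ X, ∃ u1 ∈ X, ∃ u2 ∈ X, A w v1 ∧ A u1 v2 ∧ A u2 v2 ∧ w ≠ u1 ∧ w ≠ u2 ∧ u1 ≠ u2) := by
  induction hS with
  | nil => exact ⟨∅, by simp, by simpa using PM.nil, by simp, Or.inl rfl⟩
  | @cons S a b _ hab hne ha hb ih =>
    obtain ⟨X, hX, pX, aX, cX⟩ := ih
    by_cases old : A a b
    · refine ⟨X, hX.trans ((subset_insert _ _).trans (subset_insert _ _)),
        pX.add old hne (by simp [ha]) (by simp [hb]) fun v => ?_, aX, cX⟩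
      simp only [mem_sdiff, mem_insert]
      constructor
      · tauto
      · rintro (rfl | rfl | hv)
        · exact ⟨Or.inl rfl, fun e => ha (hX e)⟩
        · exact ⟨Or.inr (Or.inl rfl), fun e => hb (hX e)⟩
        · tauto
    obtain ⟨w, u, ew, eu, nwu, hwu, hw, hu⟩ : ∃ w u, A w v1 ∧ A u v2 ∧ w ≠ u ∧
        insert a (insert b S) = insert w (insert u S) ∧ w ∉ S ∧ u ∉ S := by
      rcases hab with (e | e) | (e | e)
      · exact absurd ((h.hAR _ _).2 (Or.inl e)) old
      · exact ⟨a, b, e.2.2.1, e.2.2.2.1, hne, rfl, ha, hb⟩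
      · exact absurd ((h.hAR _ _).2 (Or.inr e)) old
      · exact ⟨b, a, e.2.2.1, e.2.2.2.1, hne.symm, insert_comm _ _ _, hb, ha⟩
    rw [hwu]
    refine ⟨insert w (insert u X), insert_subset_insert _ (insert_subset_insert _ hX),
      pX.of_iff fun v => ?_, ?_, Or.inr ?_⟩
    · simp only [mem_sdiff, mem_insert, not_or]
      constructor
      · tauto
      · intro hv
        exact ⟨Or.inr (Or.inr hv.1), fun e => hw (e ▸ hv.1), fun e => hu (e ▸ hv.1), hv.2⟩
    · intro x hx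
      simp only [mem_insert] at hx
      rcases hx with rfl | rfl | hx
      · exact Or.inl ew
      · exact Or.inr eu
      · exact aX x hx
    · rcases cX with rfl | ⟨w', u', e1, e2, e3, rfl⟩ | ⟨w', hw', u1, h1, u2, h2, e⟩
      · exact Or.inl ⟨w, u, ew, eu, nwu, rfl⟩
      · have hu' : u' ∈ S := hX (by simp)
        exact Or.inr ⟨w, by simp, u, by simp, u', by simp, ew, eu, e2, nwu,
          fun e => hw (e ▸ hu'), fun e => hu (e ▸ hu')⟩
      · exact Or.inr ⟨w', by simp [hw'], u1, by simp [h1], u2, by simp [h2], e⟩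

theorem Pr.mixed (h : Pr A R K v1 v2) {y a b : V} (hy : y ∈ K) (ha : a ∈ K) (hb : b ∈ K)
    (hab : a ≠ b) (hya : y ≠ a) (e1 : A y v1) (e2 : A a v2) (r : R y b)
    (hP : PM A (K \ {y, a, b})) : False := by
  refine h.o1 y (by simp [hy]) v1 (by simp) b (by simp [hb]) (fun e => h.n1 (e ▸ hb))
    (h.t1 hy e1) r (hP.add e2 (fun e => h.n2 (e ▸ ha)) (by simp) (by simp [h.n2]) fun v => ?_)
  simp only [mem_sdiff, mem_insert, mem_singleton, not_or]
  constructor
  · tauto
  · rintro (rfl | rfl | hv)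
    · exact ⟨Or.inr (Or.inr ha), hya.symm, fun e => h.n1 (e ▸ ha), hab⟩
    · exact ⟨Or.inr (Or.inl rfl), fun e => h.n2 (e ▸ hy), (h.ne h.arc).symm, fun e => h.n2 (e ▸ hb)⟩
    · exact ⟨Or.inr (Or.inr hv.1), hv.2.1, fun e => h.n1 (e ▸ hv.1), hv.2.2.2⟩

theorem Pr.noOut (h : Pr A R K v1 v2) : NoOut (AA A R K v1 v2) (RR A R K v1 v2) K := by
  intro y hy a ha b hb hab ra rb hP
  have hya : y ≠ a := by
    rcases ra with e | e
    · exact h.ne e
    · exact e.2.2.2.2
  have hyb : y ≠ b := by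
    rcases rb with e | e
    · exact h.ne e
    · exact e.2.2.2.2
  obtain ⟨X, hX, pX, aX, cX⟩ := h.split hP
  have hXm : ∀ x ∈ X, x ∈ K ∧ x ≠ y ∧ x ≠ a ∧ x ≠ b := by
    intro x hx
    simpa [not_or] using hX hx
  have hFK : (K \ {y, a, b}) \ X ⊆ K := sdiff_subset.trans sdiff_subset
  have hout : ∀ x ∈ K, x ∉ (K \ {y, a, b}) \ X → x ∈ X ∨ x = y ∨ x = a ∨ x = b := by
    intro x hx hn
    simp only [mem_sdiff, mem_insert, mem_singleton] at hn
    tauto
  rcases cX with rfl | ⟨w, u, e1, e2, e3, rfl⟩ | ⟨w, hw, u1, h1, u2, h2, e0, e1, e2, m1, m2, m3⟩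
  · rw [sdiff_empty] at pX
    rcases ra with ra | ra <;> rcases rb with rb | rb
    · refine h.o1 y (by simp [hy]) a (by simp [ha]) b (by simp [hb]) hab ra rb
        (pX.add ((h.hAR _ _).2 (Or.inl h.arc)) (h.ne h.arc) (by simp [h.n1]) (by simp [h.n2])
          fun v => ?_)
      simp only [mem_sdiff, mem_insert, mem_singleton, not_or]
      constructor
      · tauto
      · rintro (rfl | rfl | hv)
        · exact ⟨Or.inl rfl, fun e => h.n1 (e ▸ hy), fun e => h.n1 (e ▸ ha), fun e => h.n1 (e ▸ hb)⟩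
        · exact ⟨Or.inr (Or.inl rfl), fun e => h.n2 (e ▸ hy), fun e => h.n2 (e ▸ ha),
            fun e => h.n2 (e ▸ hb)⟩
        · tauto
    · refine h.mixed hy hb ha hab.symm hyb rb.2.2.1 rb.2.2.2.1 ra (pX.of_iff fun v => ?_)
      simp only [mem_sdiff, mem_insert, mem_singleton, not_or]
      tauto
    · exact h.mixed hy ha hb hab hya ra.2.2.1 ra.2.2.2.1 rb pX
    · refine h.flp.c1 ha hb hy ra.2.2.2.1 rb.2.2.2.1 ra.2.2.1 hab hya hyb (pX.of_iff fun v => ?_)
      simp only [mem_sdiff, mem_insert, mem_singleton, not_or]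
      tauto
  · have mw := hXm w (by simp)
    have mu := hXm u (by simp)
    rcases ra with ra | ra
    · rcases rb with rb | rb
      · have p1 := PM.cons pX e1 (fun e => h.n1 (e ▸ mw.1)) (by simp) (by simp [h.n1])
        refine h.o1 y (by simp [hy]) a (by simp [ha]) b (by simp [hb]) hab ra rb
          (p1.add e2 (fun e => h.n2 (e ▸ mu.1)) ?_ ?_ fun v => ?_)
        · simp only [mem_sdiff, mem_insert, mem_singleton, not_or]
          exact ⟨e3.symm, fun e => h.n1 (e ▸ mu.1), fun e => e.2.2 trivial⟩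
        · simp only [mem_sdiff, mem_insert, mem_singleton, not_or]
          exact ⟨fun e => h.n2 (e ▸ mw.1), (h.ne h.arc).symm, fun e => h.n2 e.1.1⟩
        · simp only [mem_sdiff, mem_insert, mem_singleton, not_or]
          constructor
          · tauto
          · rintro (rfl | rfl | rfl | rfl | hv)
            · exact ⟨Or.inr (Or.inr mu.1), mu.2⟩
            · exact ⟨Or.inr (Or.inl rfl), fun e => h.n2 (e ▸ hy), fun e => h.n2 (e ▸ ha),
                fun e => h.n2 (e ▸ hb)⟩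
            · exact ⟨Or.inr (Or.inr mw.1), mw.2⟩
            · exact ⟨Or.inl rfl, fun e => h.n1 (e ▸ hy), fun e => h.n1 (e ▸ ha),
                fun e => h.n1 (e ▸ hb)⟩
            · exact ⟨Or.inr (Or.inr hv.1.1), hv.1.2⟩
      · refine h.twoNew _ hFK pX a (fun x hx hn => ?_) w u b mw.1 mu.1 hb (by simp) (by simp)
          (by simp) e1 e2 rb.2.2.2.1 e3 mw.2.2.2 mu.2.2.2
        rcases hout x hx hn with e | rfl | rfl | rfl
        · exact Or.inl (aX x e)
        · exact Or.inl (Or.inl rb.2.2.1)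
        · exact Or.inr rfl
        · exact Or.inl (Or.inr rb.2.2.2.1)
    · refine h.twoNew _ hFK pX b (fun x hx hn => ?_) w u a mw.1 mu.1 ha (by simp) (by simp)
        (by simp) e1 e2 ra.2.2.2.1 e3 mw.2.2.1 mu.2.2.1
      rcases hout x hx hn with e | rfl | rfl | rfl
      · exact Or.inl (aX x e)
      · exact Or.inl (Or.inl ra.2.2.1)
      · exact Or.inl (Or.inr ra.2.2.2.1)
      · exact Or.inr rfl
  · have mw := hXm w hw
    have mu1 := hXm u1 h1
    have mu2 := hXm u2 h2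
    rcases ra with ra | ra
    · have p1 := PM.cons pX ((h.hAR _ _).2 (Or.inl ra)) hya (by simp) (by simp)
      refine h.twoNew _ (insert_subset hy (insert_subset ha hFK)) p1 b (fun x hx hn => ?_) w u1 u2
        mw.1 mu1.1 mu2.1 (by simp [hw, mw.2.1, mw.2.2.1]) (by simp [h1, mu1.2.1, mu1.2.2.1])
        (by simp [h2, mu2.2.1, mu2.2.2.1]) e0 e1 e2 m1 m2 m3
      rw [mem_insert, mem_insert, not_or, not_or] at hn
      rcases hout x hx hn.2.2 with e | e | e | e
      · exact Or.inl (aX x e)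
      · exact absurd e hn.1
      · exact absurd e hn.2.1
      · exact Or.inr e
    · refine h.twoNew _ hFK pX b (fun x hx hn => ?_) w u1 u2 mw.1 mu1.1 mu2.1 (by simp [hw])
        (by simp [h1]) (by simp [h2]) e0 e1 e2 m1 m2 m3
      rcases hout x hx hn with e | rfl | rfl | rfl
      · exact Or.inl (aX x e)
      · exact Or.inl (Or.inl ra.2.2.1)
      · exact Or.inl (Or.inr ra.2.2.2.1)
      · exact Or.inr rfl

theorem RR_flip : RR A (flip R) K v2 v1 = flip (RR A R K v1 v2) := by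
  funext a b
  apply propext
  unfold RR flip
  constructor
  · rintro (e | e)
    · exact Or.inl e
    · exact Or.inr ⟨e.2.1, e.1, e.2.2.2.1, e.2.2.1, e.2.2.2.2.symm⟩
  · rintro (e | e)
    · exact Or.inl e
    · exact Or.inr ⟨e.2.1, e.1, e.2.2.2.1, e.2.2.1, e.2.2.2.2.symm⟩

theorem AA_flip : AA A (flip R) K v2 v1 = AA A R K v1 v2 := by
  funext a b
  apply propext
  unfold AA
  rw [RR_flip]
  exact or_comm

theorem Pr.le (h : Pr A R K v1 v2) (a b : V) (e : A a b) : AA A R K v1 v2 a b := by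
  rcases (h.hAR _ _).1 e with e | e
  · exact Or.inl (Or.inl e)
  · exact Or.inr (Or.inl e)

theorem Pr.two (h : Pr A R K v1 v2) {x s s' : V} (hx : x ∈ K) (hs : s ∈ K) (hs' : s' ∈ K)
    (hd : Deg2 (AA A R K v1 v2) K x) (e1 : AA A R K v1 v2 x s) (e2 : AA A R K v1 v2 x s')
    (m1 : s ≠ s') (m2 : x ≠ s) : PM A (K.erase s \ {x, s'}) := by
  obtain ⟨p, q, hpq⟩ := hd
  obtain ⟨y, hy, _, hxy, hP⟩ := (h.fc s hs).elim h.symm x (mem_erase.2 ⟨m2, hx⟩)
  rw [mem_erase] at hy
  have a1 := hpq s hs e1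
  have a2 := hpq s' hs' e2
  have a3 := hpq y hy.2 (h.le _ _ hxy)
  have : y = s' := by
    rcases a1 with rfl | rfl <;> rcases a2 with rfl | rfl <;> rcases a3 with rfl | rfl <;>
      first | rfl | exact absurd rfl m1 | exact absurd rfl hy.1
  rw [← this]
  exact hP

theorem Pr.notW (h : Pr A R K v1 v2) (d1 : ¬ Deg2 A (insert v1 (insert v2 K)) v1)
    (d2 : ¬ Deg2 A (insert v1 (insert v2 K)) v2) {x : V} (hx : x ∈ K)
    (hd : Deg2 (AA A R K v1 v2) K x) (e : A x v1) : False := by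
  unfold Deg2 at d1 d2
  push Not at d1 d2
  have g2 : ∀ p, ∃ u ∈ K, A u v2 ∧ u ≠ p := by
    intro p
    obtain ⟨u, hu, a, b, c⟩ := d2 v1 p
    refine ⟨u, ?_, h.symm _ _ a, c⟩
    rcases mem_insert.1 hu with rfl | hu
    · exact absurd rfl b
    rcases mem_insert.1 hu with rfl | hu
    · exact absurd a (h.irr _)
    · exact hu
  by_cases e' : A x v2
  · obtain ⟨u, hu, au, nu⟩ := g2 x
    obtain ⟨w, hw, a, b, nw⟩ := d1 v2 x
    have hwK : w ∈ K := by
      rcases mem_insert.1 hw with rfl | hw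
      · exact absurd a (h.irr _)
      rcases mem_insert.1 hw with rfl | hw
      · exact absurd rfl b
      · exact hw
    have aw := h.symm _ _ a
    by_cases hwu : w = u
    · subst hwu
      obtain ⟨y, hy, hyx, hxy, hP⟩ := (h.fc w hwK).elim h.symm x (mem_erase.2 ⟨nw.symm, hx⟩)
      rw [mem_erase] at hy
      have hP' : PM A (K \ {x, w, y}) := hP.of_iff fun v => by
        simp only [mem_sdiff, mem_insert, mem_singleton, not_or, mem_erase]
        tauto
      rcases (h.hAR _ _).1 hxy with r | r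
      · exact h.mixed hx hwK hy.2 hy.1.symm nw.symm e au r hP'
      · exact h.flp.mixed hx hwK hy.2 hy.1.symm nw.symm e' aw r hP'
    · have := h.two hx hwK hu hd (Or.inr (Or.inr ⟨hwK, hx, aw, e', nw⟩))
        (Or.inl (Or.inr ⟨hx, hu, e, au, nu.symm⟩)) hwu nw.symm
      refine h.c1 hwK hx hu aw e au nw (fun e => hwu e.symm) nu (this.of_iff fun v => ?_)
      simp only [mem_sdiff, mem_insert, mem_singleton, not_or, mem_erase]
      tauto
  · obtain ⟨u, hu, au, _⟩ := g2 x
    obtain ⟨u', hu', au', nu'⟩ := g2 u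
    have n1 : x ≠ u := fun q => e' (q ▸ au)
    have n2 : x ≠ u' := fun q => e' (q ▸ au')
    have := h.two hx hu hu' hd (Or.inl (Or.inr ⟨hx, hu, e, au, n1⟩))
      (Or.inl (Or.inr ⟨hx, hu', e, au', n2⟩)) nu'.symm n1
    refine h.flp.c1 hu hu' hx au au' e nu'.symm n1 n2 (this.of_iff fun v => ?_)
    simp only [mem_sdiff, mem_insert, mem_singleton, not_or, mem_erase]
    tauto

theorem Pr.step (h : Pr A R K v1 v2) (z : V) (hz : z ∈ K)
    (ih : ∀ A' R' : V → V → Prop, (∀ a b, A' a b ↔ R' a b ∨ R' b a) → (∀ a, ¬ A' a a) → FC A' K →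
      NoOut A' R' K → NoOut A' (flip R') K → K ≠ {z} → ∃ x ∈ K, x ≠ z ∧ Deg2 A' K x) :
    ∃ x ∈ insert v1 (insert v2 K), x ≠ z ∧ Deg2 A (insert v1 (insert v2 K)) x := by
  by_cases d1 : Deg2 A (insert v1 (insert v2 K)) v1
  · exact ⟨v1, by simp, fun e => h.n1 (e ▸ hz), d1⟩
  by_cases d2 : Deg2 A (insert v1 (insert v2 K)) v2
  · exact ⟨v2, by simp, fun e => h.n2 (e ▸ hz), d2⟩
  have hK : K ≠ {z} := by
    rintro rfl
    refine d1 ⟨v2, z, fun w hw a => ?_⟩
    simp only [mem_insert, mem_singleton] at hw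
    rcases hw with rfl | rfl | rfl
    · exact absurd a (h.irr _)
    · exact Or.inl rfl
    · exact Or.inr rfl
  obtain ⟨x, hx, hxz, hd⟩ := ih (AA A R K v1 v2) (RR A R K v1 v2) (fun a b => Iff.rfl)
    (fun a e => by
      rcases e with (e | e) | (e | e)
      · exact h.ne e rfl
      · exact e.2.2.2.2 rfl
      · exact h.ne e rfl
      · exact e.2.2.2.2 rfl)
    (fun x hx => (h.fc x hx).mono h.le) h.noOut
    (by rw [← RR_flip, ← AA_flip]; exact h.flp.noOut) hK
  refine ⟨x, by simp [hx], hxz, ?_⟩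
  obtain ⟨p, q, hpq⟩ := id hd
  refine ⟨p, q, fun w hw a => ?_⟩
  rcases mem_insert.1 hw with rfl | hw
  · exact (h.notW d1 d2 hx hd a).elim
  rcases mem_insert.1 hw with rfl | hw
  · exact (h.flp.notW (by rw [insert_comm]; exact d2) (by rw [insert_comm]; exact d1) hx
      (by rw [AA_flip]; exact hd) a).elim
  · exact hpq w hw (h.le _ _ a)

/-- a factor-critical set all of whose removable two-edge paths are directed has a vertex of
degree at most two other than a prescribed one -/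
theorem deg_two : ∀ (n : ℕ) (W : Finset V), W.card ≤ n → ∀ z ∈ W, ∀ A R : V → V → Prop,
    (∀ a b, A a b ↔ R a b ∨ R b a) → (∀ a, ¬ A a a) → FC A W →
      NoOut A R W → NoOut A (flip R) W → W ≠ {z} → ∃ x ∈ W, x ≠ z ∧ Deg2 A W x := by
  intro n
  induction n with
  | zero =>
    intro W hn z hz
    rw [card_eq_zero.1 (Nat.le_zero.1 hn)] at hz
    simp at hz
  | succ n ih =>
    intro W hn z hz A R hAR hirr hW o1 o2 hne
    classical
    have hA : ∀ a b, A a b → A b a := fun a b h => (hAR _ _).2 ((hAR _ _).1 h).symm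
    obtain ⟨K, hK, hKmax⟩ := exists_max_image
      (W.powerset.filter (fun K => z ∈ K ∧ FC A K ∧ PM A (W \ K) ∧ K ≠ W)) card
      ⟨{z}, mem_filter.2 ⟨by simpa using hz, by simp, fun x hx => by
        rw [mem_singleton.1 hx]; simpa using PM.nil,
        by rw [sdiff_singleton_eq_erase]; exact hW z hz, hne.symm⟩⟩
    rw [mem_filter, mem_powerset] at hK
    obtain ⟨hKW, hzK, fK, pK, nK⟩ := hK
    have hmax : MaxP A K W := by
      intro K' a b c d e
      by_contra f
      have := hKmax K' (mem_filter.2 ⟨mem_powerset.2 b, a hzK, d, e, f⟩)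
      omega
    have hsplit : ∀ s ∈ W \ K, PM A ((W \ K).erase s ∪ K) := by
      intro s hs
      rw [mem_sdiff] at hs
      refine (hW s hs.1).of_iff fun v => ?_
      simp only [mem_sdiff, mem_union, mem_erase]
      constructor
      · rintro (hv | hv)
        · tauto
        · exact ⟨fun e => hs.2 (e ▸ hv), hKW hv⟩
      · tauto
    obtain ⟨s0, hs0⟩ : (W \ K).Nonempty :=
      sdiff_nonempty.2 fun h => nK (Subset.antisymm hKW h)
    obtain ⟨t0, w, _, _, wR, _, ⟨k0, hk0, ak0⟩, _⟩ := ear_path hA K _ (W \ K) le_rfl pK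
      disjoint_sdiff s0 hs0 (hsplit s0 hs0)
    have hs := wR (2 * t0 + 1) (by omega)
    obtain ⟨t, v, v0, vinj, vR, vadj, ⟨k1, hk1, ak1⟩, vP⟩ := ear_path hA K _ (W \ K) le_rfl pK
      disjoint_sdiff _ hs (hsplit _ hs)
    let u : ℕ → V := fun i => if i = 0 then k0 else if i = 2 * (t + 1) + 1 then k1 else v (i - 1)
    have hu : ∀ i, 1 ≤ i → i ≤ 2 * (t + 1) → u i = v (i - 1) := by
      intro i h1 h2
      have e1 : i ≠ 0 := by omega
      have e2 : i ≠ 2 * (t + 1) + 1 := by omega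
      simp only [u, e1, e2, if_false]
    have hu0 : u 0 = k0 := by simp [u]
    have hu1 : u (2 * (t + 1) + 1) = k1 := by simp [u]
    have hE : Ear A K (t + 1) u := by
      refine ⟨hu0 ▸ hk0, hu1 ▸ hk1, ?_, ?_, ?_⟩
      · intro i h1 h2
        rw [hu i h1 h2]
        exact (mem_sdiff.1 (vR _ (by omega))).2
      · intro i j h1 h2 h3 h4 e
        rw [hu i h1 h2, hu j h3 h4] at e
        have := vinj _ _ (by omega) (by omega) e
        omega
      · intro i hi
        by_cases hi0 : i = 0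
        · subst hi0
          rw [hu0, hu (0 + 1) (by omega) (by omega)]
          show A k0 (v 0)
          rw [v0]
          exact hA _ _ ak0
        by_cases hi1 : i = 2 * (t + 1)
        · subst hi1
          rw [hu1, hu _ (by omega) (by omega)]
          exact ak1
        rw [hu i (by omega) (by omega), hu (i + 1) (by omega) (by omega)]
        have := vadj (i - 1) (by omega)
        have e : i - 1 + 1 = i + 1 - 1 := by omega
        rw [e] at this
        exact this
    have him : (Icc 1 (2 * (t + 1))).image u = (range (2 * t + 2)).image v := by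
      ext x
      simp only [mem_image, mem_Icc, mem_range]
      constructor
      · rintro ⟨i, hi, rfl⟩
        exact ⟨i - 1, by omega, (hu i hi.1 hi.2).symm⟩
      · rintro ⟨i, hi, rfl⟩
        exact ⟨i + 1, by omega, hu (i + 1) (by omega) (by omega)⟩
    have hWe : K ∪ (Icc 1 (2 * (t + 1))).image u = W := by
      refine hmax _ subset_union_left (union_subset hKW ?_) (by rw [hE.card]; omega) (hE.fc fK) ?_
      · rw [him]
        intro x hx
        obtain ⟨i, hi, rfl⟩ := mem_image.1 hx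
        exact (mem_sdiff.1 (vR i (mem_range.1 hi))).1
      · rw [him]
        refine vP.of_iff fun x => ?_
        simp only [mem_sdiff, mem_union, not_or]
        tauto
    by_cases ht : t = 0
    · subst ht
      have hcard := hE.card
      rw [hWe] at hcard
      have hW2 : W = insert (u 1) (insert (u 2) K) := by
        rw [← hWe, show Icc 1 (2 * (0 + 1)) = {1, 2} by decide]
        ext x
        simp only [image_insert, image_singleton, mem_union, mem_insert, mem_singleton]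
        tauto
      have ih' := fun A' R' => ih K (by omega) z hzK A' R'
      rcases (hAR _ _).1 (hE.adj 1 (by omega)) with r | r
      · rw [hW2]
        exact Pr.step ⟨hAR, hirr, hE.out 1 (by omega) (by omega), hE.out 2 (by omega) (by omega), r,
          fK, hW2 ▸ o1, hW2 ▸ o2⟩ z hzK ih'
      · rw [insert_comm] at hW2
        rw [hW2]
        exact Pr.step ⟨hAR, hirr, hE.out 2 (by omega) (by omega), hE.out 1 (by omega) (by omega), r,
          fK, hW2 ▸ o1, hW2 ▸ o2⟩ z hzK ih'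
    · obtain ⟨m, m1, m2, hm⟩ := hE.long fK hAR hirr (hWe.symm ▸ o1) (hWe.symm ▸ o2)
        (hWe.symm ▸ hmax) (by omega)
      rw [hWe] at hm
      refine ⟨u m, ?_, fun e => hE.out m m1 m2 (e ▸ hzK), hm⟩
      rw [← hWe]
      exact hE.mem m (by omega)

end Pool.Agent.H.MP_a74ba6_co
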